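import Mathlib
import Pool.Agent.Y224.TS.T8

/-!
# The second Lie algebra of a factor
-/

set_option linter.unusedSectionVars false

namespace Pool.Agent.N183.TS

open Matrix Module Pool.Agent.W437.HC Pool.Agent.W437.HD Pool.Agent.W548.Odd Pool.Agent.W522.U
open Pool.Agent.H204R3.SP Pool.Agent.H204R3.GP Pool.Agent.Y90 Pool.Agent.Y224.TS
open Pool.Agent.W437.HP (cK cK_mul cK_one)

noncomputable section

variable {G a : ℕ} {Z : Matrix (Fin G) (Fin G) ℂ} {Z' : Matrix (Fin a) (Fin a) ℂ}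
  {E : Matrix (Fin G ⊕ Fin G) (Fin a ⊕ Fin a) ℚ} {F : Matrix (Fin a ⊕ Fin a) (Fin G ⊕ Fin G) ℚ}
  {S : Set (Matrix (Fin G ⊕ Fin G) (Fin G ⊕ Fin G) ℂ)}

/-- The compressions of the involutions to a factor. -/
def SF (E : Matrix (Fin G ⊕ Fin G) (Fin a ⊕ Fin a) ℚ)
    (F : Matrix (Fin a ⊕ Fin a) (Fin G ⊕ Fin G) ℚ)
    (S : Set (Matrix (Fin G ⊕ Fin G) (Fin G ⊕ Fin G) ℂ)) :
    Set (Matrix (Fin a ⊕ Fin a) (Fin a ⊕ Fin a) ℂ) :=
  (fun D => cK ℂ F * D * cK ℂ E) '' S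

section fac

variable (hf : Fac Z Z' E F)
include hf

/-- The idempotent of the factor commutes with the Lie algebra. -/
theorem ef_comm {X : Matrix (Fin G ⊕ Fin G) (Fin G ⊕ Fin G) ℂ} (hX : X ∈ LZ Z) :
    (cK ℂ E * cK ℂ F) * X = X * (cK ℂ E * cK ℂ F) := by
  obtain ⟨-, h2, h3⟩ := hf.comp hX
  calc (cK ℂ E * cK ℂ F) * X = cK ℂ E * (cK ℂ F * X) := Matrix.mul_assoc _ _ _
    _ = cK ℂ E * (cK ℂ F * X * cK ℂ E * cK ℂ F) := by rw [← h3]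
    _ = (cK ℂ E * (cK ℂ F * X * cK ℂ E)) * cK ℂ F := by simp only [Matrix.mul_assoc]
    _ = X * (cK ℂ E * cK ℂ F) := by rw [← h2, Matrix.mul_assoc]

variable (h : TD Z S)
include h

theorem ef_commT {X : Matrix (Fin G ⊕ Fin G) (Fin G ⊕ Fin G) ℂ} (hX : X ∈ Y224.TS.LT S) :
    (cK ℂ E * cK ℂ F) * X = X * (cK ℂ E * cK ℂ F) :=
  (h.comm' _).2 (fun _ hX => ef_comm hf hX) X hX

theorem xe {X : Matrix (Fin G ⊕ Fin G) (Fin G ⊕ Fin G) ℂ} (hX : X ∈ Y224.TS.LT S) :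
    X * cK ℂ E = cK ℂ E * (cK ℂ F * X * cK ℂ E) := by
  have h1 := ef_commT hf h hX
  calc X * cK ℂ E = X * (cK ℂ E * (cK ℂ F * cK ℂ E)) := by rw [hf.fe', Matrix.mul_one]
    _ = (X * (cK ℂ E * cK ℂ F)) * cK ℂ E := by simp only [Matrix.mul_assoc]
    _ = cK ℂ E * (cK ℂ F * X * cK ℂ E) := by rw [← h1]; simp only [Matrix.mul_assoc]

theorem fx {X : Matrix (Fin G ⊕ Fin G) (Fin G ⊕ Fin G) ℂ} (hX : X ∈ Y224.TS.LT S) :
    cK ℂ F * X = cK ℂ F * X * cK ℂ E * cK ℂ F := by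
  have h1 := ef_commT hf h hX
  calc cK ℂ F * X = (cK ℂ F * cK ℂ E) * cK ℂ F * X := by rw [hf.fe', Matrix.one_mul]
    _ = cK ℂ F * ((cK ℂ E * cK ℂ F) * X) := by simp only [Matrix.mul_assoc]
    _ = cK ℂ F * X * cK ℂ E * cK ℂ F := by rw [h1]; simp only [Matrix.mul_assoc]

theorem mulT {X Y : Matrix (Fin G ⊕ Fin G) (Fin G ⊕ Fin G) ℂ} (hY : Y ∈ Y224.TS.LT S) :
    cK ℂ F * (X * Y) * cK ℂ E = (cK ℂ F * X * cK ℂ E) * (cK ℂ F * Y * cK ℂ E) := by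
  calc cK ℂ F * (X * Y) * cK ℂ E = cK ℂ F * X * (Y * cK ℂ E) := by simp only [Matrix.mul_assoc]
    _ = cK ℂ F * X * (cK ℂ E * (cK ℂ F * Y * cK ℂ E)) := by rw [← xe hf h hY]
    _ = _ := by simp only [Matrix.mul_assoc]

/-- The compression of the second Lie algebra. -/
theorem compT {X : Matrix (Fin G ⊕ Fin G) (Fin G ⊕ Fin G) ℂ} (hX : X ∈ Y224.TS.LT S) :
    cK ℂ F * X * cK ℂ E ∈ Y224.TS.LT (SF E F S) := by
  let L : Submodule ℂ (Matrix (Fin G ⊕ Fin G) (Fin G ⊕ Fin G) ℂ) :=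
    { carrier := {X | X ∈ Y224.TS.LT S ∧ cK ℂ F * X * cK ℂ E ∈ Y224.TS.LT (SF E F S)}
      add_mem' := by
        rintro X Y ⟨x0, x1⟩ ⟨y0, y1⟩
        refine ⟨Submodule.add_mem _ x0 y0, ?_⟩
        rw [Matrix.mul_add, Matrix.add_mul]
        exact Submodule.add_mem _ x1 y1
      zero_mem' := by
        refine ⟨Submodule.zero_mem _, ?_⟩
        rw [Matrix.mul_zero, Matrix.zero_mul]
        exact Submodule.zero_mem _
      smul_mem' := by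
        rintro c X ⟨x0, x1⟩
        refine ⟨Submodule.smul_mem _ c x0, ?_⟩
        rw [Matrix.mul_smul, Matrix.smul_mul]
        exact Submodule.smul_mem _ c x1 }
  have hL : Y224.TS.LT S ≤ L := by
    refine LT_le (fun D hD => ⟨LT_gen hD, LT_gen ⟨D, hD, rfl⟩⟩) ?_
    rintro A ⟨a0, a1⟩ C ⟨c0, c1⟩
    refine ⟨LT_br a0 c0, ?_⟩
    rw [Matrix.mul_sub, Matrix.sub_mul, mulT hf h c0, mulT hf h a0]
    exact LT_br a1 c1
  exact (hL hX).2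

/-- Each element of the second Lie algebra of the factor is a compression. -/
theorem liftT {Y : Matrix (Fin a ⊕ Fin a) (Fin a ⊕ Fin a) ℂ} (hY : Y ∈ Y224.TS.LT (SF E F S)) :
    ∃ X ∈ Y224.TS.LT S, cK ℂ F * X * cK ℂ E = Y := by
  let M : Matrix (Fin G ⊕ Fin G) (Fin G ⊕ Fin G) ℂ →ₗ[ℂ]
      Matrix (Fin a ⊕ Fin a) (Fin a ⊕ Fin a) ℂ :=
    { toFun := fun X => cK ℂ F * X * cK ℂ E
      map_add' := fun X Y => by rw [Matrix.mul_add, Matrix.add_mul]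
      map_smul' := fun c X => by rw [Matrix.mul_smul, Matrix.smul_mul, RingHom.id_apply] }
  have hL : Y224.TS.LT (SF E F S) ≤ (Y224.TS.LT S).map M := by
    refine LT_le ?_ ?_
    · rintro _ ⟨D, hD, rfl⟩
      exact ⟨D, LT_gen hD, rfl⟩
    · rintro _ ⟨A, hA, rfl⟩ _ ⟨C, hC, rfl⟩
      refine ⟨A * C - C * A, LT_br hA hC, ?_⟩
      change cK ℂ F * (A * C - C * A) * cK ℂ E =
        (cK ℂ F * A * cK ℂ E) * (cK ℂ F * C * cK ℂ E) -
          (cK ℂ F * C * cK ℂ E) * (cK ℂ F * A * cK ℂ E)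
      rw [Matrix.mul_sub, Matrix.sub_mul, mulT hf h hC, mulT hf h hA]
  obtain ⟨X, hX, hXY⟩ := hL hY
  exact ⟨X, hX, hXY⟩

/-- The action on the factor. -/
theorem actT {X : Matrix (Fin G ⊕ Fin G) (Fin G ⊕ Fin G) ℂ} (hX : X ∈ Y224.TS.LT S)
    (v : Fin G ⊕ Fin G → ℂ) : ml F (X *ᵥ v) = (cK ℂ F * X * cK ℂ E) *ᵥ ml F v := by
  rw [ml_apply, ml_apply, mulVec_mulVec, mulVec_mulVec, ← fx hf h hX]

/-- The commutants. -/
theorem commF (P : Matrix (Fin a ⊕ Fin a) (Fin a ⊕ Fin a) ℂ) :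
    ((∀ D ∈ SF E F S, P * D = D * P) ↔
      ∀ D ∈ S, (cK ℂ E * P * cK ℂ F) * D = D * (cK ℂ E * P * cK ℂ F)) ∧
    ((∀ X ∈ LZ Z', P * X = X * P) ↔
      ∀ X ∈ LZ Z, (cK ℂ E * P * cK ℂ F) * X = X * (cK ℂ E * P * cK ℂ F)) := by
  have key : ∀ X : Matrix (Fin G ⊕ Fin G) (Fin G ⊕ Fin G) ℂ,
      X * cK ℂ E = cK ℂ E * (cK ℂ F * X * cK ℂ E) →
      cK ℂ F * X = cK ℂ F * X * cK ℂ E * cK ℂ F →
      (P * (cK ℂ F * X * cK ℂ E) = (cK ℂ F * X * cK ℂ E) * P ↔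
        (cK ℂ E * P * cK ℂ F) * X = X * (cK ℂ E * P * cK ℂ F)) := by
    intro X h1 h2
    have e1 : (cK ℂ E * P * cK ℂ F) * X = cK ℂ E * (P * (cK ℂ F * X * cK ℂ E)) * cK ℂ F := by
      calc (cK ℂ E * P * cK ℂ F) * X = cK ℂ E * P * (cK ℂ F * X) := Matrix.mul_assoc _ _ _
        _ = cK ℂ E * P * (cK ℂ F * X * cK ℂ E * cK ℂ F) := by rw [← h2]
        _ = _ := by simp only [Matrix.mul_assoc]
    have e2 : X * (cK ℂ E * P * cK ℂ F) = cK ℂ E * ((cK ℂ F * X * cK ℂ E) * P) * cK ℂ F := by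
      calc X * (cK ℂ E * P * cK ℂ F) = (X * cK ℂ E) * P * cK ℂ F := by
            simp only [Matrix.mul_assoc]
        _ = (cK ℂ E * (cK ℂ F * X * cK ℂ E)) * P * cK ℂ F := by rw [← h1]
        _ = _ := by simp only [Matrix.mul_assoc]
    rw [e1, e2]
    constructor
    · intro h3
      rw [h3]
    · intro h3
      have h4 := congrArg (fun M => cK ℂ F * M * cK ℂ E) h3
      simp only [Matrix.mul_assoc] at h4
      rw [hf.fe'] at h4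
      simp only [← Matrix.mul_assoc] at h4
      rw [hf.fe'] at h4
      simp only [Matrix.mul_assoc, Matrix.one_mul, Matrix.mul_one] at h4
      simp only [Matrix.mul_assoc]
      exact h4
  constructor
  · constructor
    · intro h1 D hD
      exact (key D (xe hf h (LT_gen hD)) (fx hf h (LT_gen hD))).1 (h1 _ ⟨D, hD, rfl⟩)
    · rintro h1 _ ⟨D, hD, rfl⟩
      exact (key D (xe hf h (LT_gen hD)) (fx hf h (LT_gen hD))).2 (h1 D hD)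
  · constructor
    · intro h1 X hX
      obtain ⟨h2, h3, h4⟩ := hf.comp hX
      exact (key X h3 h4).1 (h1 _ h2)
    · intro h1 Y hY
      obtain ⟨X, hX, rfl⟩ := hf.lift hY
      obtain ⟨h2, h3, h4⟩ := hf.comp hX
      exact (key X h3 h4).2 (h1 X hX)

theorem trace_fac {P : Matrix (Fin a ⊕ Fin a) (Fin a ⊕ Fin a) ℂ}
    (X : Matrix (Fin G ⊕ Fin G) (Fin G ⊕ Fin G) ℂ) :
    (P * (cK ℂ F * X * cK ℂ E)).trace = ((cK ℂ E * P * cK ℂ F) * X).trace := by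
  have e1 : P * (cK ℂ F * X * cK ℂ E) = (P * cK ℂ F * X) * cK ℂ E := by
    simp only [Matrix.mul_assoc]
  have e2 : (cK ℂ E * P * cK ℂ F) * X = cK ℂ E * (P * cK ℂ F * X) := by
    simp only [Matrix.mul_assoc]
  rw [e1, e2, trace_mul_comm]

variable (hZ : PM Z) (hZ' : PM Z')
include hZ hZ'

/-- The data of a factor. -/
theorem tdF : TD Z' (SF E F S) := by
  have hDS : ∀ σ, cK ℂ F * DS Z σ * cK ℂ E = DS Z' σ := by
    intro σ
    rw [hf.fds, Matrix.mul_assoc, hf.fe', Matrix.mul_one]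
  have htr : ∀ (P : Matrix (Fin a ⊕ Fin a) (Fin a ⊕ Fin a) ℂ) (D) (σ : ℂ ≃+* ℂ),
      (∀ P : Matrix (Fin G ⊕ Fin G) (Fin G ⊕ Fin G) ℂ,
        (∀ X ∈ LZ Z, P * X = X * P) → (P * D).trace = (P * DS Z σ).trace) →
      (∀ X ∈ LZ Z', P * X = X * P) →
      (P * (cK ℂ F * D * cK ℂ E)).trace = (P * DS Z' σ).trace := by
    intro P D σ h1 h2
    rw [trace_fac hf h, h1 _ ((commF hf h P).2.1 h2), ← hDS, trace_fac hf h]
  refine ⟨?_, ?_, ?_, ?_, ?_, ?_⟩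
  · rintro _ ⟨D, hD, rfl⟩
    change (cK ℂ F * D * cK ℂ E) * (cK ℂ F * D * cK ℂ E) = 1
    rw [← mulT hf h (LT_gen hD), h.sq D hD, Matrix.mul_one, hf.fe']
  · rintro _ ⟨D, hD, rfl⟩ u v
    change om a ((cK ℂ F * D * cK ℂ E) *ᵥ u) v + om a u ((cK ℂ F * D * cK ℂ E) *ᵥ v) = 0
    let b : (Fin G ⊕ Fin G → ℂ) →ₗ[ℂ] (Fin G ⊕ Fin G → ℂ) →ₗ[ℂ] ℂ := (om a).compl₁₂ (ml F) (ml F)
    have hb : ∀ u v, b u v = om a (ml F u) (ml F v) := fun _ _ => rfl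
    have hbZ : ∀ X ∈ LZ Z, ∀ u v, b (X *ᵥ u) v + b u (X *ᵥ v) = 0 := by
      intro X hX u v
      rw [hb, hb, hf.act hX, hf.act hX]
      exact hZ'.om_sp (hf.comp hX).1 _ _
    have hbT := (h.bil b (fun X hX => hZ.om_sp hX)).2 hbZ D (LT_gen hD) (cK ℂ E *ᵥ u)
      (cK ℂ E *ᵥ v)
    have e1 : ∀ u, ml F (D *ᵥ cK ℂ E *ᵥ u) = (cK ℂ F * D * cK ℂ E) *ᵥ u := by
      intro u
      rw [ml_apply, mulVec_mulVec, mulVec_mulVec, Matrix.mul_assoc]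
    have e2 : ∀ u, ml F (cK ℂ E *ᵥ u) = u := by
      intro u
      rw [ml_apply, mulVec_mulVec, hf.fe', one_mulVec]
    rw [hb, hb, e1, e1, e2, e2] at hbT
    exact hbT
  · intro P
    obtain ⟨h1, h2⟩ := commF hf h P
    rw [h1, h2]
    exact h.comm _
  · rintro _ ⟨D, hD, rfl⟩
    obtain ⟨σ, hσ⟩ := h.tr D hD
    exact ⟨σ, fun P hP => htr P D σ hσ hP⟩
  · intro σ
    obtain ⟨D, hD, hσ⟩ := h.ex σ
    exact ⟨_, ⟨D, hD, rfl⟩, fun P hP => htr P D σ hσ hP⟩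
  · intro M hM
    have hM' : Stab (Y224.TS.LT S) (M.map (ml E)) := by
      rintro X hX _ ⟨u, hu, rfl⟩
      refine ⟨(cK ℂ F * X * cK ℂ E) *ᵥ u, hM _ (compT hf h hX) u hu, ?_⟩
      rw [ml_apply, ml_apply, mulVec_mulVec, mulVec_mulVec, ← xe hf h hX]
    obtain ⟨π, h1, h2, h3⟩ := h.cr _ hM'
    refine ⟨(ml F).comp (π.comp (ml E)), ?_, ?_, ?_⟩
    · intro Y hY w
      obtain ⟨X, hX, rfl⟩ := liftT hf h hY
      have e1 : ml E ((cK ℂ F * X * cK ℂ E) *ᵥ w) = X *ᵥ ml E w := by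
        rw [ml_apply, ml_apply, mulVec_mulVec, mulVec_mulVec, ← xe hf h hX]
      rw [LinearMap.comp_apply, LinearMap.comp_apply, LinearMap.comp_apply, LinearMap.comp_apply,
        e1, h1 X hX, actT hf h hX]
    · intro w
      obtain ⟨u, hu, hu'⟩ := h2 (ml E w)
      rw [LinearMap.comp_apply, LinearMap.comp_apply, ← hu', ml_apply, ml_apply, mulVec_mulVec,
        hf.fe', one_mulVec]
      exact hu
    · intro w hw
      rw [LinearMap.comp_apply, LinearMap.comp_apply, h3 _ ⟨w, hw, rfl⟩, ml_apply, ml_apply,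
        mulVec_mulVec, hf.fe', one_mulVec]

end fac

end

end Pool.Agent.N183.TS
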