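import Mathlib
import Pool.Agent.N183.TS.Fac

/-!
# Elements of rank one and factors
-/

set_option linter.unusedSectionVars false

namespace Pool.Agent.N183.TS

open Matrix Module Pool.Agent.W437.HC Pool.Agent.W437.HD Pool.Agent.W548.Odd Pool.Agent.W522.U
open Pool.Agent.H204R3.SP Pool.Agent.H204R3.GP Pool.Agent.Y90 Pool.Agent.Y224.TS
open Pool.Agent.W437.HP (cK cK_mul cK_one)

noncomputable section

variable {G a : ℕ} {Z : Matrix (Fin G) (Fin G) ℂ} {Z' : Matrix (Fin a) (Fin a) ℂ}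
  {E : Matrix (Fin G ⊕ Fin G) (Fin a ⊕ Fin a) ℚ} {F : Matrix (Fin a ⊕ Fin a) (Fin G ⊕ Fin G) ℚ}
  {S : Set (Matrix (Fin G ⊕ Fin G) (Fin G ⊕ Fin G) ℂ)}

/-- An element of degree one for an involution of the set or its negative, with rank one on the
subspace. -/
def Rk1T (S : Set (Matrix (Fin G ⊕ Fin G) (Fin G ⊕ Fin G) ℂ))
    (U : Submodule ℂ (Fin G ⊕ Fin G → ℂ)) : Prop :=
  ∃ D ∈ S, ∃ ε : ℂ, (ε = 1 ∨ ε = -1) ∧ ∃ N ∈ Y224.TS.LT S, (ε • D) * N = N ∧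
    N * (ε • D) = -N ∧ finrank ℂ (U.map (mulVecLin N)) = 1

/-- Transport from a factor. -/
theorem Rk1T.of_fac (h : TD Z S) (hf : Fac Z Z' E F) (hZ : PM Z)
    {U : Submodule ℂ (Fin G ⊕ Fin G → ℂ)} (hU : IrS (LZ Z) U) (h0 : ∃ u ∈ U, ml F u ≠ 0)
    (h' : Rk1T (SF E F S) (U.map (ml F))) : Rk1T S U := by
  obtain ⟨_, ⟨D, hD, rfl⟩, ε, hε, N', hN', h1, h2, h3⟩ := h'
  change (ε • (cK ℂ F * D * cK ℂ E)) * N' = N' at h1
  change N' * (ε • (cK ℂ F * D * cK ℂ E)) = -N' at h2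
  have hinj := hf.inj hU h0
  have hεε : ε * ε = 1 := by rcases hε with rfl | rfl <;> norm_num
  have hbr : ∀ X ∈ Y224.TS.LT S, ∀ Y ∈ Y224.TS.LT S, X * Y - Y * X ∈ Y224.TS.LT S :=
    fun X hX Y hY => LT_br hX hY
  have hDm : ε • D ∈ Y224.TS.LT S := Submodule.smul_mem _ _ (LT_gen hD)
  have hD2 : (ε • D) * (ε • D) = 1 := by
    rw [smul_mul_smul_comm, hεε, h.sq D hD, one_smul]
  obtain ⟨y, hy, rfl⟩ := liftT hf h hN'
  have hm := gup_mem hbr hDm hD2 hy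
  have hF : cK ℂ F * ((1 / 4 : ℂ) • ((1 + ε • D) * y * (1 - ε • D))) * cK ℂ E =
      cK ℂ F * y * cK ℂ E := by
    have e1 : cK ℂ F * (1 + ε • D) = (1 + ε • (cK ℂ F * D * cK ℂ E)) * cK ℂ F := by
      rw [Matrix.mul_add, Matrix.add_mul, Matrix.mul_one, Matrix.one_mul, Matrix.mul_smul,
        Matrix.smul_mul, ← fx hf h (LT_gen hD)]
    have e2 : (1 - ε • D) * cK ℂ E = cK ℂ E * (1 - ε • (cK ℂ F * D * cK ℂ E)) := by
      rw [Matrix.mul_sub, Matrix.sub_mul, Matrix.mul_one, Matrix.one_mul, Matrix.mul_smul,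
        Matrix.smul_mul, ← xe hf h (LT_gen hD)]
    have e3 : cK ℂ F * ((1 + ε • D) * y * (1 - ε • D)) * cK ℂ E =
        (1 + ε • (cK ℂ F * D * cK ℂ E)) * (cK ℂ F * y * cK ℂ E) *
          (1 - ε • (cK ℂ F * D * cK ℂ E)) := by
      calc cK ℂ F * ((1 + ε • D) * y * (1 - ε • D)) * cK ℂ E =
          (cK ℂ F * (1 + ε • D)) * y * ((1 - ε • D) * cK ℂ E) := by
            simp only [Matrix.mul_assoc]
        _ = _ := by
            rw [e1, e2]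
            simp only [Matrix.mul_assoc]
    rw [Matrix.mul_smul, Matrix.smul_mul, e3, Matrix.add_mul, Matrix.one_mul, h1, Matrix.mul_sub,
      Matrix.mul_one, Matrix.add_mul, h2]
    module
  refine ⟨D, hD, ε, hε, _, hm, gup_l hD2 y, gup_r hD2 y, ?_⟩
  rw [← h3, ← hF]
  set N := (1 / 4 : ℂ) • ((1 + ε • D) * y * (1 - ε • D)) with hN
  have hU' : IrS (Y224.TS.LT S) U := (h.irS hZ).2 hU
  have e4 : (U.map (ml F)).map (mulVecLin (cK ℂ F * N * cK ℂ E)) =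
      (U.map (mulVecLin N)).map (ml F) := by
    rw [← Submodule.map_comp, ← Submodule.map_comp]
    congr 1
    refine LinearMap.ext fun u => ?_
    exact (actT hf h hm u).symm
  rw [e4]
  refine (finrank_ml (F := F) (U := U.map (mulVecLin N)) ?_).symm
  rintro _ ⟨u, hu, rfl⟩ h5
  exact hinj _ (hU'.2.1 N hm u hu) h5

/-- The conditions on the simple factors. -/
def LTF (Z : Matrix (Fin G) (Fin G) ℂ)
    (S : Set (Matrix (Fin G ⊕ Fin G) (Fin G ⊕ Fin G) ℂ)) : Prop :=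
  ∀ (a : ℕ) (Z' : Matrix (Fin a) (Fin a) ℂ) (E : Matrix (Fin G ⊕ Fin G) (Fin a ⊕ Fin a) ℚ)
    (F : Matrix (Fin a ⊕ Fin a) (Fin G ⊕ Fin G) ℚ), Fac Z Z' E F → PM Z' → IsSimpleAV Z' →
    0 < a → ∀ U, IrS (LZ Z') U → 2 ≤ finrank ℂ U →
      Rk1T (SF E F S) U ∧ ∀ (σ : ℂ ≃+* ℂ) (c : ℂ), ∃ u ∈ U, DS Z' σ *ᵥ u ≠ c • u

/-- The conditions on the irreducible submodules. -/
theorem locT (h : TD Z S) (hZ : PM Z) (hs : LTF Z S) {U : Submodule ℂ (Fin G ⊕ Fin G → ℂ)}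
    (hU : IrS (LZ Z) U) (hn : 2 ≤ finrank ℂ U) :
    Rk1T S U ∧ ∀ (σ : ℂ ≃+* ℂ) (c : ℂ), ∃ u ∈ U, DS Z σ *ᵥ u ≠ c • u := by
  obtain ⟨a, Z', E, F, hf, h', hs', ha, h0⟩ := exists_fac hZ hU.1
  have hinj := hf.inj hU h0
  have hU' := hf.irr hU h0
  obtain ⟨h1, h2⟩ := hs a Z' E F hf h' hs' ha _ hU' (by rw [finrank_ml hinj]; exact hn)
  refine ⟨h1.of_fac h hf hZ hU h0, fun σ c => ?_⟩
  obtain ⟨u', ⟨u, hu, rfl⟩, hu'⟩ := h2 σ c
  refine ⟨u, hu, fun h3 => hu' ?_⟩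
  have h4 := hf.act (DS_mem σ) u
  rw [h3, hf.fds, Matrix.mul_assoc, hf.fe', Matrix.mul_one] at h4
  rw [← h4, map_smul]

/-- Unipotent elements of rank one. -/
theorem Rk1T.unip (h : TD Z S) {U : Submodule ℂ (Fin G ⊕ Fin G → ℂ)} (hr : Rk1T S U) :
    ∃ γ : Gam (GG (Y224.TS.LT S)), (RG (GG (Y224.TS.LT S)) γ - 1) *
      (RG (GG (Y224.TS.LT S)) γ - 1) = 0 ∧
      finrank ℂ (U.map (RG (GG (Y224.TS.LT S)) γ - 1)) = 1 := by
  obtain ⟨D0, hD0, ε, hε, N, hN, h1, h2, h3⟩ := hr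
  set D := ε • D0 with hDdef
  have hεε : ε * ε = 1 := by rcases hε with rfl | rfl <;> norm_num
  have hDm : D ∈ Y224.TS.LT S := Submodule.smul_mem _ _ (LT_gen hD0)
  have hDD : D * D = 1 := by
    rw [hDdef, smul_mul_smul_comm, hεε, h.sq D0 hD0, one_smul]
  obtain ⟨γ, hγ⟩ := unip_mem (G := GG (Y224.TS.LT S)) (D := ph _ D) (N := ph _ N)
    (by rw [← map_mul, hDD, map_one]) (mem_GG.2 hDm) (mem_GG.2 hN)
    (by rw [← map_mul, h1]) (by rw [← map_mul, h2, map_neg])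
  have h4 : RG (GG (Y224.TS.LT S)) γ - 1 = ph _ N := by
    rw [hγ, add_sub_cancel_left]
  refine ⟨γ, ?_, ?_⟩
  · rw [h4, ← map_mul]
    have h5 : N * N = 0 := by
      have h6 : N * N = -(N * N) := by
        calc N * N = N * (D * N) := by rw [h1]
          _ = (N * D) * N := by rw [Matrix.mul_assoc]
          _ = -(N * N) := by rw [h2, Matrix.neg_mul]
      have h7 : (2 : ℂ) • (N * N) = 0 := by
        rw [two_smul]
        nth_rewrite 1 [h6]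
        rw [neg_add_cancel]
      exact (smul_eq_zero.1 h7).resolve_left two_ne_zero
    rw [h5, map_zero]
  · rw [h4]
    exact h3

end

end Pool.Agent.N183.TS
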