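import Mathlib
import Pool.Agent.N183.TS.Rk
import Pool.Agent.N183.JP.Sp
import Pool.Agent.N183.JP.Pair

/-!
# Elements of rank one on an irreducible submodule
-/

set_option linter.unusedSectionVars false

namespace Pool.Agent.N183.TS

open Matrix Module Pool.Agent.W437.HC Pool.Agent.W437.HD Pool.Agent.W548.Odd Pool.Agent.W522.U
open Pool.Agent.H204R3.SP Pool.Agent.H204R3.GP Pool.Agent.Y90 Pool.Agent.Y224.TS
open Pool.Agent.W437.HP (cK cK_mul cK_one)

noncomputable section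

section gen

variable {B : Type} [Fintype B] [DecidableEq B] {S : Set (Matrix B B ℂ)}
  {U : Submodule ℂ (B → ℂ)}

theorem four_eq {V : Type} [AddCommGroup V] [Module ℂ V] {T x : End ℂ V} (h1 : T * x = x)
    (h2 : x * T = -x) : x = (1 / 4 : ℂ) • ((1 + T) * x * (1 - T)) := by
  have e1 : (1 + T) * x * (1 - T) = x + T * x - x * T - (T * x) * T := by noncomm_ring
  rw [e1, h1, h2]
  module

theorem res_sq {D : Matrix B B ℂ} (hD : D * D = 1) (hU : ∀ u ∈ U, D *ᵥ u ∈ U) :
    resM D U hU * resM D U hU = 1 := by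
  refine LinearMap.ext fun u => Subtype.ext ?_
  rw [Module.End.mul_apply, resM_coe, resM_coe, mulVec_mulVec, hD, one_mulVec]
  rfl

/-- The restrictions of the involutions act irreducibly. -/
theorem res_irr (hsq : ∀ D ∈ S, D * D = 1) (hU : IrS (Y224.TS.LT S) U) (W : Submodule ℂ U)
    (hW : ∀ X ∈ resL (Y224.TS.LT S) U, X * X = (1 / 4 : ℂ) • 1 → ∀ u ∈ W, X u ∈ W) :
    W = ⊥ ∨ W = ⊤ := by
  have hst : ∀ D ∈ S, ∀ u ∈ U, D *ᵥ u ∈ U := fun D hD u hu => hU.2.1 D (LT_gen hD) u hu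
  have hS : ∀ D ∈ S, ∀ u ∈ W.map U.subtype, D *ᵥ u ∈ W.map U.subtype := by
    rintro D hD _ ⟨u, hu, rfl⟩
    have h1 := hW ((1 / 2 : ℂ) • resM D U (hst D hD))
      ⟨(1 / 2 : ℂ) • D, Submodule.smul_mem _ _ (LT_gen hD), fun u => by
        rw [LinearMap.smul_apply, Submodule.coe_smul, resM_coe, smul_mulVec]⟩ (by
        rw [smul_mul_smul_comm, res_sq (hsq D hD)]
        norm_num) u hu
    rw [LinearMap.smul_apply] at h1
    have h2 := W.smul_mem (2 : ℂ) h1
    rw [smul_smul] at h2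
    norm_num at h2
    exact ⟨_, h2, rfl⟩
  have hL : Stab (Y224.TS.LT S) (W.map U.subtype) := by
    let C : Submodule ℂ (Matrix B B ℂ) :=
      { carrier := {X | ∀ u ∈ W.map U.subtype, X *ᵥ u ∈ W.map U.subtype}
        add_mem' := fun {X Y} hX hY u hu => by
          rw [add_mulVec]
          exact Submodule.add_mem _ (hX u hu) (hY u hu)
        zero_mem' := fun u _ => by
          rw [zero_mulVec]
          exact Submodule.zero_mem _
        smul_mem' := fun c X hX u hu => by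
          rw [smul_mulVec]
          exact Submodule.smul_mem _ _ (hX u hu) }
    have hC : Y224.TS.LT S ≤ C := LT_le (fun D hD => hS D hD) (fun A hA A' hA' u hu => by
      rw [sub_mulVec, ← mulVec_mulVec, ← mulVec_mulVec]
      exact Submodule.sub_mem _ (hA _ (hA' u hu)) (hA' _ (hA u hu)))
    exact fun X hX => hC hX
  rcases hU.2.2 _ (Submodule.map_subtype_le _ _) hL with h2 | h2
  · left
    rw [eq_bot_iff]
    intro u hu
    have h3 : (u : B → ℂ) ∈ W.map U.subtype := ⟨u, hu, rfl⟩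
    rw [h2, Submodule.mem_bot] at h3
    rw [Submodule.mem_bot]
    exact Subtype.ext h3
  · right
    rw [eq_top_iff]
    intro u _
    have h3 : (u : B → ℂ) ∈ W.map U.subtype := by
      rw [h2]
      exact u.2
    obtain ⟨u', hu', huu⟩ := h3
    have h4 : u' = u := Subtype.ext huu
    rw [← h4]
    exact hu'

/-- Properties of the restrictions. -/
theorem res_ind (hst : ∀ X ∈ Y224.TS.LT S, ∀ u ∈ U, X *ᵥ u ∈ U)
    (L : Submodule ℂ (End ℂ U)) (h1 : ∀ D (hD : D ∈ S), resM D U (hst D (LT_gen hD)) ∈ L)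
    (h2 : ∀ X ∈ L, ∀ Y ∈ L, X * Y - Y * X ∈ L) : resL (Y224.TS.LT S) U ≤ L := by
  let C : Submodule ℂ (Matrix B B ℂ) :=
    { carrier := {X | ∃ hX : ∀ u ∈ U, X *ᵥ u ∈ U, resM X U hX ∈ L}
      add_mem' := by
        rintro X Y ⟨hX, hX'⟩ ⟨hY, hY'⟩
        refine ⟨fun u hu => by rw [add_mulVec]; exact U.add_mem (hX u hu) (hY u hu), ?_⟩
        have h3 := L.add_mem hX' hY'
        convert h3 using 1
        refine LinearMap.ext fun u => Subtype.ext ?_
        rw [resM_coe, LinearMap.add_apply, Submodule.coe_add, resM_coe, resM_coe, add_mulVec]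
      zero_mem' := by
        refine ⟨fun u _ => by rw [zero_mulVec]; exact U.zero_mem, ?_⟩
        have h3 := L.zero_mem
        convert h3 using 1
        refine LinearMap.ext fun u => Subtype.ext ?_
        rw [resM_coe, LinearMap.zero_apply, Submodule.coe_zero, zero_mulVec]
      smul_mem' := by
        rintro c X ⟨hX, hX'⟩
        refine ⟨fun u hu => by rw [smul_mulVec]; exact U.smul_mem c (hX u hu), ?_⟩
        have h3 := L.smul_mem c hX'
        convert h3 using 1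
        refine LinearMap.ext fun u => Subtype.ext ?_
        rw [resM_coe, LinearMap.smul_apply, Submodule.coe_smul, resM_coe, smul_mulVec] }
  have hC : Y224.TS.LT S ≤ C := by
    refine LT_le (fun D hD => ⟨hst D (LT_gen hD), h1 D hD⟩) ?_
    rintro A ⟨hA, hA'⟩ A' ⟨hB, hB'⟩
    refine ⟨fun u hu => ?_, ?_⟩
    · rw [sub_mulVec, ← mulVec_mulVec, ← mulVec_mulVec]
      exact U.sub_mem (hA _ (hB u hu)) (hB _ (hA u hu))
    · have h3 := h2 _ hA' _ hB'
      convert h3 using 1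
      refine LinearMap.ext fun u => Subtype.ext ?_
      rw [resM_coe, LinearMap.sub_apply, Submodule.coe_sub, Module.End.mul_apply,
        Module.End.mul_apply, resM_coe, resM_coe, resM_coe, resM_coe, sub_mulVec, mulVec_mulVec,
        mulVec_mulVec]
  rintro Y ⟨X, hX, hXY⟩
  obtain ⟨h3, h4⟩ := hC hX
  have h5 : Y = resM X U h3 := LinearMap.ext fun u => Subtype.ext (hXY u)
  rw [h5]
  exact h4

/-- An element of the restriction of degree one and rank one. -/
theorem rk_of_res (hsq : ∀ D ∈ S, D * D = 1) {D : Matrix B B ℂ} (hD : D ∈ S)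
    (hst : ∀ u ∈ U, D *ᵥ u ∈ U) {ε : ℂ}
    (hε : ε = 1 ∨ ε = -1) {x : End ℂ U} (hx : x ∈ resL (Y224.TS.LT S) U)
    (h1 : (ε • resM D U hst) * x = x) (h2 : x * (ε • resM D U hst) = -x) (h3 : rk x = 1) :
    ∃ N ∈ Y224.TS.LT S, (ε • D) * N = N ∧ N * (ε • D) = -N ∧
      finrank ℂ (U.map (mulVecLin N)) = 1 := by
  obtain ⟨X, hX, hXx⟩ := hx
  have hεε : ε * ε = 1 := by rcases hε with rfl | rfl <;> norm_num
  have hbr : ∀ X ∈ Y224.TS.LT S, ∀ Y ∈ Y224.TS.LT S, X * Y - Y * X ∈ Y224.TS.LT S :=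
    fun X hX Y hY => LT_br hX hY
  have hDm : ε • D ∈ Y224.TS.LT S := Submodule.smul_mem _ _ (LT_gen hD)
  have hD2 : (ε • D) * (ε • D) = 1 := by
    rw [smul_mul_smul_comm, hεε, hsq D hD, one_smul]
  refine ⟨_, gup_mem hbr hDm hD2 hX, gup_l hD2 X, gup_r hD2 X, ?_⟩
  rw [finrank_map_res (Y := x) (fun u => ?_), h3]
  have h4 : x = (1 / 4 : ℂ) • ((1 + ε • resM D U hst) * x * (1 - ε • resM D U hst)) := by
    exact four_eq h1 h2
  conv_lhs => rw [h4]
  rw [smul_mulVec, ← mulVec_mulVec, ← mulVec_mulVec]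
  simp only [LinearMap.smul_apply, Module.End.mul_apply, LinearMap.add_apply,
    LinearMap.sub_apply, Module.End.one_apply, Submodule.coe_smul, Submodule.coe_add,
    Submodule.coe_sub, resM_coe, hXx, add_mulVec, sub_mulVec, one_mulVec, smul_mulVec]

/-- The rank one part of an element of rank one. -/
theorem rk_of_up (hsq : ∀ D ∈ S, D * D = 1) {D : Matrix B B ℂ} (hD : D ∈ S)
    (hst : ∀ u ∈ U, D *ᵥ u ∈ U) {ε : ℂ}
    (hε : ε = 1 ∨ ε = -1) {x : End ℂ U} (hx : x ∈ resL (Y224.TS.LT S) U) (h3 : rk x = 1)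
    (h0 : (1 + ε • resM D U hst) * x * (1 - ε • resM D U hst) ≠ 0) :
    ∃ N ∈ Y224.TS.LT S, (ε • D) * N = N ∧ N * (ε • D) = -N ∧
      finrank ℂ (U.map (mulVecLin N)) = 1 := by
  obtain ⟨X, hX, hXx⟩ := hx
  have hεε : ε * ε = 1 := by rcases hε with rfl | rfl <;> norm_num
  have hbr : ∀ X ∈ Y224.TS.LT S, ∀ Y ∈ Y224.TS.LT S, X * Y - Y * X ∈ Y224.TS.LT S :=
    fun X hX Y hY => LT_br hX hY
  have hDm : ε • D ∈ Y224.TS.LT S := Submodule.smul_mem _ _ (LT_gen hD)
  have hD2 : (ε • D) * (ε • D) = 1 := by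
    rw [smul_mul_smul_comm, hεε, hsq D hD, one_smul]
  refine ⟨_, gup_mem hbr hDm hD2 hX, gup_l hD2 X, gup_r hD2 X, ?_⟩
  rw [finrank_map_res (Y := (1 / 4 : ℂ) • ((1 + ε • resM D U hst) * x * (1 - ε • resM D U hst)))
    (fun u => ?_), rk_one_of h0 h3]
  rw [smul_mulVec, ← mulVec_mulVec, ← mulVec_mulVec]
  simp only [LinearMap.smul_apply, Module.End.mul_apply, LinearMap.add_apply,
    LinearMap.sub_apply, Module.End.one_apply, Submodule.coe_smul, Submodule.coe_add,
    Submodule.coe_sub, resM_coe, hXx, add_mulVec, sub_mulVec, one_mulVec, smul_mulVec]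

/-- The eigenspaces of the restriction. -/
theorem es_res {D : Matrix B B ℂ} (hst : ∀ u ∈ U, D *ᵥ u ∈ U) (c : ℂ) :
    finrank ℂ (es (resM D U hst) ⊤ c) = finrank ℂ (es (ph B D) U c) := by
  have h1 : (es (resM D U hst) ⊤ c).map U.subtype = es (ph B D) U c := by
    ext v
    rw [mem_es]
    constructor
    · rintro ⟨u, hu, rfl⟩
      have h2 := (mem_es.1 hu).2
      exact ⟨u.2, congrArg Subtype.val h2⟩
    · rintro ⟨hv, hv'⟩
      exact ⟨⟨v, hv⟩, mem_es.2 ⟨trivial, Subtype.ext hv'⟩, rfl⟩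
  rw [← h1, Submodule.finrank_map_subtype_eq]

/-- The trace of the restriction of an involution. -/
theorem trace_res {D : Matrix B B ℂ} (hD : D * D = 1) (hst : ∀ u ∈ U, D *ᵥ u ∈ U) :
    LinearMap.trace ℂ U (resM D U hst) =
      (finrank ℂ (es (ph B D) U 1) : ℂ) - finrank ℂ (es (ph B D) U (-1)) := by
  have h1 := trace_proj (π := 1) (res_sq hD hst) (U := ⊤) (fun _ => trivial)
    (fun v _ => rfl) (fun v => rfl)
  rw [one_mul] at h1
  rw [h1, es_res, es_res]

end gen

end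

end Pool.Agent.N183.TS
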