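import Mathlib
import Pool.Agent.N183.TS.Loc

/-!
# Elements of rank one on an irreducible submodule: the theorems
-/

set_option linter.unusedSectionVars false

namespace Pool.Agent.N183.TS

open Matrix Module Pool.Agent.W437.HC Pool.Agent.W437.HD Pool.Agent.W548.Odd Pool.Agent.W522.U
open Pool.Agent.H204R3.SP Pool.Agent.H204R3.GP Pool.Agent.Y90 Pool.Agent.Y224.TS
open Pool.Agent.W437.HP (cK cK_mul cK_one)

noncomputable section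

theorem trace_br {V : Type} [AddCommGroup V] [Module ℂ V] (X Y : End ℂ V) :
    LinearMap.trace ℂ V (X * Y - Y * X) = 0 := by
  rw [map_sub, LinearMap.trace_mul_comm, sub_self]

theorem neg_eq {V : Type} [AddCommGroup V] [Module ℂ V] {T x : End ℂ V}
    (h : (1 - T) * x * (1 + T) ≠ 0) : (1 + (-1 : ℂ) • T) * x * (1 - (-1 : ℂ) • T) ≠ 0 := by
  rw [neg_one_smul, sub_neg_eq_add, ← sub_eq_add_neg]
  exact h

variable {G : ℕ} {Z : Matrix (Fin G) (Fin G) ℂ}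
  {S : Set (Matrix (Fin G ⊕ Fin G) (Fin G ⊕ Fin G) ℂ)}

/-- An element of degree one for an involution or its negative, with rank one on the subspace. -/
def Rk1D (S : Set (Matrix (Fin G ⊕ Fin G) (Fin G ⊕ Fin G) ℂ))
    (D : Matrix (Fin G ⊕ Fin G) (Fin G ⊕ Fin G) ℂ)
    (U : Submodule ℂ (Fin G ⊕ Fin G → ℂ)) : Prop :=
  ∃ ε : ℂ, (ε = 1 ∨ ε = -1) ∧ ∃ N ∈ Y224.TS.LT S, (ε • D) * N = N ∧
    N * (ε • D) = -N ∧ finrank ℂ (U.map (mulVecLin N)) = 1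

theorem Rk1D.rk1T {D : Matrix (Fin G ⊕ Fin G) (Fin G ⊕ Fin G) ℂ}
    {U : Submodule ℂ (Fin G ⊕ Fin G → ℂ)} (hD : D ∈ S) (h : Rk1D S D U) : Rk1T S U := ⟨D, hD, h⟩

variable (h : TD Z S) (hZ : PM Z) {D : Matrix (Fin G ⊕ Fin G) (Fin G ⊕ Fin G) ℂ} (hD : D ∈ S)
  {U : Submodule ℂ (Fin G ⊕ Fin G → ℂ)} (hU : IrS (LZ Z) U)
include h hZ hD hU

/-- Small dimension. -/
theorem rk1_small (hns : ∀ c : ℂ, ∃ u ∈ U, D *ᵥ u ≠ c • u) (h3 : finrank ℂ U ≤ 3) :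
    Rk1D S D U := by
  have hU' : IrS (Y224.TS.LT S) U := (h.irS hZ).2 hU
  have hbr : ∀ X ∈ Y224.TS.LT S, ∀ Y ∈ Y224.TS.LT S, X * Y - Y * X ∈ Y224.TS.LT S :=
    fun X hX Y hY => LT_br hX hY
  obtain ⟨N, hN, h1, h2, hu⟩ := exists_gup hbr (LT_gen hD) (h.sq D hD) hU' hns
  refine ⟨1, Or.inl rfl, N, hN, by rw [one_smul, h1], by rw [one_smul, h2], ?_⟩
  have h4 := two_rank_le' (fun u hu => hU'.2.1 N hN u hu) h1 h2
  have h5 : finrank ℂ (U.map (mulVecLin N)) ≠ 0 := by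
    obtain ⟨u, hu, hu'⟩ := hu
    intro h0
    have h1 := Submodule.finrank_eq_zero.1 h0
    have h2 : N *ᵥ u ∈ U.map (mulVecLin N) := ⟨u, hu, rfl⟩
    rw [h1, Submodule.mem_bot] at h2
    exact hu' h2
  omega

/-- Symplectic representations of dimension at most seven or not divisible by four. -/
theorem rk1_sp (b : (Fin G ⊕ Fin G → ℂ) →ₗ[ℂ] (Fin G ⊕ Fin G → ℂ) →ₗ[ℂ] ℂ)
    (h0 : ∃ u ∈ U, ∃ v ∈ U, b u v ≠ 0)
    (hb : ∀ X ∈ LZ Z, ∀ u ∈ U, ∀ v ∈ U, b (X *ᵥ u) v + b u (X *ᵥ v) = 0)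
    (hal : ∀ u ∈ U, ∀ v ∈ U, b u v = -b v u)
    (hd : finrank ℂ U ≤ 7 ∨ ¬4 ∣ finrank ℂ U) : Rk1D S D U := by
  have hU' : IrS (Y224.TS.LT S) U := (h.irS hZ).2 hU
  have hbT := (h.bil_on hZ hU.2.1 hU.2.1 b).2 hb
  have hst : ∀ u ∈ U, D *ᵥ u ∈ U := fun u hu => hU'.2.1 D (LT_gen hD) u hu
  let ωU : U →ₗ[ℂ] U →ₗ[ℂ] ℂ := b.compl₁₂ U.subtype U.subtype
  have hωU : ∀ u v : U, ωU u v = b u v := fun _ _ => rfl
  have halt : ∀ v, ωU v v = 0 := fun v => by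
    rw [hωU]
    have h1 := hal v v.2 v v.2
    linear_combination (1 / 2 : ℂ) * h1
  have hnd : ∀ u, (∀ v, ωU u v = 0) → u = 0 := by
    intro u hu
    apply Subtype.ext
    exact nd_left hU hU.2.1 h0 hb u u.2 fun v hv => hu ⟨v, hv⟩
  have hsp : ∀ y ∈ resL (Y224.TS.LT S) U, ∀ x z, ωU (y x) z + ωU x (y z) = 0 := by
    rintro y ⟨X, hX, hyX⟩ x z
    rw [hωU, hωU, hyX, hyX]
    exact hbT X hX _ x.2 _ z.2
  have hfr : 0 < finrank ℂ U := by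
    rw [Nat.pos_iff_ne_zero, ne_eq, Submodule.finrank_eq_zero]
    exact hU.1
  obtain ⟨e, he, he1⟩ := JP.exists_rk1_sp halt hnd
    (resL_br (fun X hX Y hY => LT_br hX hY) U) hsp (res_irr h.sq hU') hfr hd
  rcases up_or_dn halt hnd (res_sq (h.sq D hD) hst)
    (hsp _ ⟨D, LT_gen hD, fun u => rfl⟩) (hsp e he) he1 with h5 | h5
  · refine ⟨1, Or.inl rfl, rk_of_up h.sq hD hst (Or.inl rfl) he he1 ?_⟩
    rw [one_smul]
    exact h5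
  · refine ⟨-1, Or.inr rfl, rk_of_up h.sq hD hst (Or.inr rfl) he he1 ?_⟩
    exact neg_eq h5

/-- Representations on which an involution has eigenvalues of coprime multiplicities, or the
multiplicities two and two or three and three. -/
theorem rk1_pair {σ : ℂ ≃+* ℂ}
    (hσ : ∀ P : Matrix (Fin G ⊕ Fin G) (Fin G ⊕ Fin G) ℂ, (∀ X ∈ LZ Z, P * X = X * P) →
      (P * D).trace = (P * DS Z σ).trace)
    (hp : 0 < pd Z (cjS σ.symm U)) (hq : 0 < qd Z (cjS σ.symm U))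
    (hc : Nat.Coprime (pd Z (cjS σ.symm U)) (qd Z (cjS σ.symm U)) ∨
      (((pd Z (cjS σ.symm U) = 2 ∧ qd Z (cjS σ.symm U) = 2) ∨
        (pd Z (cjS σ.symm U) = 3 ∧ qd Z (cjS σ.symm U) = 3)) ∧
      (∀ τ : ℂ ≃+* ℂ, pd Z (cjS τ U) = qd Z (cjS τ U)) ∧
      ∀ b : (Fin G ⊕ Fin G → ℂ) →ₗ[ℂ] (Fin G ⊕ Fin G → ℂ) →ₗ[ℂ] ℂ,
        (∀ X ∈ LZ Z, ∀ u ∈ U, ∀ v ∈ U, b (X *ᵥ u) v + b u (X *ᵥ v) = 0) →
        ∀ u ∈ U, ∀ v ∈ U, b u v = 0)) : Rk1D S D U := by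
  have hU' : IrS (Y224.TS.LT S) U := (h.irS hZ).2 hU
  have hst' : ∀ X ∈ Y224.TS.LT S, ∀ u ∈ U, X *ᵥ u ∈ U := hU'.2.1
  have hst : ∀ u ∈ U, D *ᵥ u ∈ U := fun u hu => hU'.2.1 D (LT_gen hD) u hu
  obtain ⟨d1, d2⟩ := h.dims hZ hD hσ hU.2.1
  have htr : LinearMap.trace ℂ U (resM D U hst) =
      (pd Z (cjS σ.symm U) : ℂ) - (qd Z (cjS σ.symm U) : ℂ) := by
    rw [trace_res (h.sq D hD) hst, d1, d2]
  have hDD : ph (Fin G ⊕ Fin G) D * ph (Fin G ⊕ Fin G) D = 1 := by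
    rw [← map_mul, h.sq D hD, map_one]
  have hn : finrank ℂ U = pd Z (cjS σ.symm U) + qd Z (cjS σ.symm U) := by
    rw [← d1, ← d2]
    exact (es_add hDD hst).symm
  suffices hcc : Nat.Coprime (pd Z (cjS σ.symm U)) (qd Z (cjS σ.symm U)) ∨
      (((pd Z (cjS σ.symm U) = 2 ∧ qd Z (cjS σ.symm U) = 2) ∨
        (pd Z (cjS σ.symm U) = 3 ∧ qd Z (cjS σ.symm U) = 3)) ∧
      (∀ X ∈ resL (Y224.TS.LT S) U, LinearMap.trace ℂ U X = 0) ∧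
      ∀ β : U →ₗ[ℂ] U →ₗ[ℂ] ℂ, (∀ u v, β u v = β v u) →
        (∀ X ∈ resL (Y224.TS.LT S) U, ∀ u v, β (X u) v + β u (X v) = 0) → ∀ u v, β u v = 0) by
    obtain ⟨x, hx, h1, h2, h3⟩ := JP.exists_rk1 (𝔤 := resL (Y224.TS.LT S) U)
      (resL_br (fun X hX Y hY => LT_br hX hY) U) (res_irr h.sq hU')
      (fun L hL1 hL2 => res_ind hst' L (fun D hD => hL1 _ ⟨D, LT_gen hD, fun u => rfl⟩
        (res_sq (h.sq D hD) _)) hL2)
      (D := resM D U hst) ⟨D, LT_gen hD, fun u => rfl⟩ (res_sq (h.sq D hD) hst) htr hn hp hq hcc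
    exact ⟨1, Or.inl rfl, rk_of_res h.sq hD hst (Or.inl rfl) hx (by rw [one_smul, h1])
      (by rw [one_smul, h2]) h3⟩
  rcases hc with hc | ⟨hc1, hc2, hc3⟩
  · exact Or.inl hc
  refine Or.inr ⟨hc1, ?_, ?_⟩
  · have hL : resL (Y224.TS.LT S) U ≤ LinearMap.ker (LinearMap.trace ℂ U) := by
      refine res_ind hst' _ (fun D hD => ?_) (fun X hX Y hY => ?_)
      · obtain ⟨τ, hτ⟩ := h.tr D hD
        obtain ⟨e1, e2⟩ := h.dims hZ hD hτ hU.2.1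
        rw [LinearMap.mem_ker, trace_res (h.sq D hD), e1, e2, hc2, sub_self]
      · exact trace_br X Y
    exact fun X hX => hL hX
  · intro β _ hβ u v
    obtain ⟨g, hg⟩ := LinearMap.exists_leftInverse_of_injective U.subtype (Submodule.ker_subtype U)
    have hg' : ∀ u : U, g (u : Fin G ⊕ Fin G → ℂ) = u := fun u => congrArg (fun f => f u) hg
    have hbT : ∀ X ∈ Y224.TS.LT S, ∀ u ∈ U, ∀ v ∈ U,
        (β.compl₁₂ g g) (X *ᵥ u) v + (β.compl₁₂ g g) u (X *ᵥ v) = 0 := by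
      intro X hX u hu v hv
      have e1 := hβ (resM X U (hst' X hX)) ⟨X, hX, fun u => rfl⟩ ⟨u, hu⟩ ⟨v, hv⟩
      rw [LinearMap.compl₁₂_apply, LinearMap.compl₁₂_apply]
      have e2 := hg' (resM X U (hst' X hX) ⟨u, hu⟩)
      have e3 := hg' (resM X U (hst' X hX) ⟨v, hv⟩)
      have e4 := hg' ⟨u, hu⟩
      have e5 := hg' ⟨v, hv⟩
      rw [resM_coe] at e2 e3
      change g (X *ᵥ u) = _ at e2
      change g (X *ᵥ v) = _ at e3
      change g u = _ at e4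
      change g v = _ at e5
      rw [e2, e3, e4, e5]
      exact e1
    have e6 := hc3 _ ((h.bil_on hZ hU.2.1 hU.2.1 (β.compl₁₂ g g)).1 hbT) u u.2 v v.2
    rw [LinearMap.compl₁₂_apply, hg', hg'] at e6
    exact e6

end

end Pool.Agent.N183.TS
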