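import Mathlib
import Pool.Agent.N183.TS.Loc2
import Pool.Agent.R915.G5

/-!
# Elements of rank one for the classes of simple abelian varieties
-/

set_option linter.unusedSectionVars false

namespace Pool.Agent.N183.TS

open Matrix Module Pool.Agent.W437.HC Pool.Agent.W437.HD Pool.Agent.W548.Odd Pool.Agent.W522.U
open Pool.Agent.H204R3.SP Pool.Agent.H204R3.GP Pool.Agent.Y90 Pool.Agent.Y224.TS
open Pool.Agent.W437.HP (cK cK_mul cK_one)
open Pool.Agent.R915 (QF RF VE mem_VE VE_cj VE_main)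
open Polynomial

open scoped ComplexOrder

noncomputable section

section dims

variable {g : ℕ} {Z : Matrix (Fin g) (Fin g) ℂ}

theorem finrank_sup_finset {ι : Type*} [DecidableEq ι] (s : Finset ι)
    (W : ι → Submodule ℂ (Fin g ⊕ Fin g → ℂ)) :
    finrank ℂ (⨆ i ∈ s, W i : Submodule ℂ (Fin g ⊕ Fin g → ℂ)) ≤ ∑ i ∈ s, finrank ℂ (W i) := by
  induction s using Finset.induction_on with
  | empty => simp
  | insert i s hi ih =>
    rw [Finset.iSup_insert, Finset.sum_insert hi]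
    exact (Submodule.finrank_add_le_finrank_add_finrank _ _).trans (Nat.add_le_add_left ih _)

/-- The dimension of the eigenspaces of an endomorphism of a simple abelian variety. -/
theorem VE_ge (h : PM Z) (hs : IsSimpleAV Z)
    {M : Matrix (Fin g ⊕ Fin g) (Fin g ⊕ Fin g) ℚ} (hM : qm M * DZ Z = DZ Z * qm M)
    {θ : ℂ} (hne : VE M θ ≠ ⊥) : 2 * g ≤ (minpoly ℚ M).natDegree * finrank ℂ (VE M θ) := by
  classical
  have hspan := conj_span h hs (R915.VE_stab hM θ) hne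
  have hspan' : ⨆ σ : ℂ ≃+* ℂ, VE M (σ θ) = ⊤ := by
    rw [← hspan]
    exact iSup_congr fun σ => (VE_cj M θ σ).symm
  obtain ⟨v0, hv0, hv00⟩ := Submodule.exists_mem_ne_zero_of_ne_bot hne
  have hroot : aeval θ (minpoly ℚ M) = 0 := by
    have h1 := R915.aeval_eig (mem_VE.1 hv0) (minpoly ℚ M)
    rw [minpoly.aeval, qm_zero, zero_mulVec] at h1
    exact (smul_eq_zero.1 h1.symm).resolve_right hv00
  have hMint : IsIntegral ℚ M := Algebra.IsIntegral.isIntegral M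
  let s : Finset ℂ := ((minpoly ℚ M).rootSet ℂ).toFinset
  have hs' : ∀ σ : ℂ ≃+* ℂ, σ θ ∈ s := by
    intro σ
    rw [Set.mem_toFinset, Polynomial.mem_rootSet]
    exact ⟨minpoly.ne_zero hMint, R915.root_conj hroot σ⟩
  let W : ℂ → Submodule ℂ (Fin g ⊕ Fin g → ℂ) := fun z =>
    if ∃ σ : ℂ ≃+* ℂ, σ θ = z then VE M z else ⊥
  have hW : ∀ z, finrank ℂ (W z) ≤ finrank ℂ (VE M θ) := by
    intro z
    by_cases hz : ∃ σ : ℂ ≃+* ℂ, σ θ = z
    · have e1 : W z = VE M z := if_pos hz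
      rw [e1]
      obtain ⟨σ, rfl⟩ := hz
      rw [← VE_cj, finrank_cjS]
    · have e1 : W z = ⊥ := if_neg hz
      rw [e1, finrank_bot]
      exact Nat.zero_le _
  have htop : (⊤ : Submodule ℂ (Fin g ⊕ Fin g → ℂ)) ≤ ⨆ z ∈ s, W z := by
    rw [← hspan', iSup_le_iff]
    intro σ
    have h1 : VE M (σ θ) = W (σ θ) := by
      simp only [W]
      rw [if_pos ⟨σ, rfl⟩]
    rw [h1]
    exact le_iSup₂_of_le (σ θ) (hs' σ) le_rfl
  have h1 := Submodule.finrank_mono htop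
  have h2 := finrank_sup_finset s W
  rw [finrank_top, finrank_V] at h1
  have h3 : ∑ z ∈ s, finrank ℂ (W z) ≤ s.card * finrank ℂ (VE M θ) := by
    rw [← smul_eq_mul]
    exact Finset.sum_le_card_nsmul _ _ _ fun z _ => hW z
  have h4 : s.card ≤ (minpoly ℚ M).natDegree := by
    have h5 : s = ((minpoly ℚ M).aroots ℂ).toFinset := by
      ext z
      simp [s, Polynomial.rootSet_def]
    rw [h5]
    refine (Multiset.toFinset_card_le _).trans ?_
    refine (Polynomial.card_roots' _).trans ?_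
    exact Polynomial.natDegree_map_le
  exact h1.trans (h2.trans (h3.trans (Nat.mul_le_mul_right _ h4)))

end dims

variable {G : ℕ} {Z : Matrix (Fin G) (Fin G) ℂ}
  {S : Set (Matrix (Fin G ⊕ Fin G) (Fin G ⊕ Fin G) ℂ)}

variable (h : TD Z S) (hZ : PM Z) {D : Matrix (Fin G ⊕ Fin G) (Fin G ⊕ Fin G) ℂ} (hD : D ∈ S)
  {U : Submodule ℂ (Fin G ⊕ Fin G → ℂ)} (hU : IrS (LZ Z) U)
include h hZ hD hU

/-- Dimension at most three. -/
theorem cls_small (hs : IsSimpleAV Z) (hg : G ≤ 3) (hn : 2 ≤ finrank ℂ U) :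
    Rk1D S D U ∧ ∀ (σ : ℂ ≃+* ℂ) (c : ℂ), ∃ u ∈ U, DS Z σ *ᵥ u ≠ c • u := by
  have hns := Pool.Agent.Y90.nonscalar hZ hs hg hU hn
  refine ⟨?_, hns⟩
  by_cases h3 : finrank ℂ U ≤ 3
  · exact rk1_small h hZ hD hU (h.nonscalar hZ hD hU.2.1 hns) h3
  have hdvd := finrank_dvd hZ hs hU
  have hle : finrank ℂ U ≤ 2 * G := by
    rw [← finrank_V]
    exact Submodule.finrank_le _
  have hn2 : finrank ℂ U = 2 * G := by
    obtain ⟨k, hk⟩ := hdvd
    have hk1 : k < 2 := by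
      by_contra hk2
      push Not at hk2
      have : finrank ℂ U * 2 ≤ finrank ℂ U * k := Nat.mul_le_mul_left _ hk2
      omega
    have hk0 : k ≠ 0 := by
      rintro rfl
      omega
    have hk2 : k = 1 := by omega
    rw [hk2] at hk
    omega
  have htop : U = ⊤ := Submodule.eq_top_of_finrank_eq (by rw [hn2, finrank_V])
  refine rk1_sp h hZ hD hU (om G) ?_ (fun X hX u _ v _ => hZ.om_sp hX u v)
    (fun u _ v _ => om_anti u v) (Or.inl (by omega))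
  rw [htop]
  by_contra hcon
  push Not at hcon
  have h1 : ∀ u : Fin G ⊕ Fin G → ℂ, u = 0 := fun u => om_nd u fun v => hcon u trivial v trivial
  apply hU.1
  rw [eq_bot_iff]
  intro u _
  rw [h1 u]
  exact Submodule.zero_mem _

/-- Imaginary quadratic multiplication with multiplicities at most three or coprime. -/
theorem cls_quad {φ : Matrix (Fin G ⊕ Fin G) (Fin G ⊕ Fin G) ℚ} {d : ℚ} (k : QF Z φ d)
    (h3 : ∀ U : Submodule ℂ (Fin G ⊕ Fin G → ℂ), IrS (LZ Z) U →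
      (pd Z U ≤ 3 ∧ qd Z U ≤ 3) ∨ Nat.Coprime (pd Z U) (qd Z U)) (hn : 2 ≤ finrank ℂ U) :
    Rk1D S D U ∧ ∀ (σ : ℂ ≃+* ℂ) (c : ℂ), ∃ u ∈ U, DS Z σ *ᵥ u ≠ c • u := by
  obtain ⟨α, hα, hm⟩ := k.exists_root hZ hU
  have hns := k.nonscalar hZ hα hm hU hn
  refine ⟨?_, hns⟩
  obtain ⟨σ, hσ⟩ := h.tr D hD
  have hW : IrS (LZ Z) (cjS σ.symm U) := hU.cj gal_LZ σ.symm
  have hWn : 2 ≤ finrank ℂ (cjS σ.symm U) := by rw [finrank_cjS]; exact hn
  obtain ⟨β, hβ, hmβ⟩ := k.exists_root hZ hW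
  have hnsW := k.nonscalar hZ hβ hmβ hW hWn
  have hp := R915.pd_pos hZ hW.2.1 (hnsW (RingEquiv.refl ℂ))
  have hq := R915.qd_pos hZ hW.2.1 (hnsW (RingEquiv.refl ℂ))
  refine rk1_pair h hZ hD hU hσ hp hq ?_
  rcases h3 _ hW with ⟨h4, h5⟩ | h4
  swap
  · exact Or.inl h4
  -- the conjugates
  have hcj : ∀ τ : ℂ ≃+* ℂ, cjS τ U = cjS σ.symm U ∨ cjS τ U = cjS cc (cjS σ.symm U) := by
    intro τ
    have hT : IrS (LZ Z) (cjS τ U) := hU.cj gal_LZ τ
    obtain ⟨γ, hγ, hmγ⟩ := k.exists_root hZ hT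
    have h6 : (γ - β) * (γ + β) = 0 := by linear_combination hγ - hβ
    rcases mul_eq_zero.1 h6 with h7 | h7
    · left
      ext v
      rw [hmγ, hmβ, sub_eq_zero.1 h7]
    · right
      ext v
      rw [hmγ, k.cj_mem hβ hmβ, k.cc_root hβ, eq_neg_of_add_eq_zero_left h7]
  have hbal : pd Z (cjS σ.symm U) = qd Z (cjS σ.symm U) →
      ∀ τ : ℂ ≃+* ℂ, pd Z (cjS τ U) = qd Z (cjS τ U) := by
    intro h6 τ
    rcases hcj τ with h7 | h7
    · rw [h7, h6]
    · rw [h7, pd_cc, qd_cc, h6]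
  have hnb := fun b hb => k.no_bil hZ hα hm hU.1 b hb
  by_cases h22 : pd Z (cjS σ.symm U) = 2 ∧ qd Z (cjS σ.symm U) = 2
  · exact Or.inr ⟨Or.inl h22, hbal (by rw [h22.1, h22.2]), hnb⟩
  by_cases h33 : pd Z (cjS σ.symm U) = 3 ∧ qd Z (cjS σ.symm U) = 3
  · exact Or.inr ⟨Or.inr h33, hbal (by rw [h33.1, h33.2]), hnb⟩
  left
  have : (pd Z (cjS σ.symm U) = 1) ∨ (qd Z (cjS σ.symm U) = 1) ∨
      (pd Z (cjS σ.symm U) = 2 ∧ qd Z (cjS σ.symm U) = 3) ∨
      (pd Z (cjS σ.symm U) = 3 ∧ qd Z (cjS σ.symm U) = 2) := by omega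
  rcases this with h6 | h6 | ⟨h6, h7⟩ | ⟨h6, h7⟩
  · rw [h6]
    exact Nat.coprime_one_left _
  · rw [h6]
    exact Nat.coprime_one_right _
  · rw [h6, h7]
    decide
  · rw [h6, h7]
    decide

/-- Types I and II, relative dimension at most three or odd. -/
theorem cls_real (hs : IsSimpleAV Z) (hg : 0 < G) {M : Matrix (Fin G ⊕ Fin G) (Fin G ⊕ Fin G) ℚ}
    (k : RF Z M) (hd : 2 * G ≤ 6 * (minpoly ℚ M).natDegree ∨
      ¬4 * (minpoly ℚ M).natDegree ∣ 2 * G) : Rk1D S D U := by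
  obtain ⟨θ, hθ, hdim, hproj⟩ := VE_main hZ hs hg k.comm
  obtain ⟨σ, T, hT, hi, hTU⟩ := hproj U hU
  have hU' := R915.irS_map hU hT hi
  have hneσ : VE M (σ θ) ≠ ⊥ := fun h1 => hU'.1 (by rwa [h1, le_bot_iff] at hTU)
  have hW := k.irr hZ hs (θ := σ θ) hneσ
  have hreal : cc (σ θ) = σ θ := k.real _ (R915.root_conj hθ σ)
  rcases hW.2.2 _ hTU hU'.2.1 with h1 | h1
  · exact absurd h1 hU'.1
  have hfr : finrank ℂ (VE M (σ θ)) = finrank ℂ (VE M θ) := by rw [← VE_cj, finrank_cjS]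
  have hne : VE M θ ≠ ⊥ := by
    intro h2
    apply hneσ
    rw [← VE_cj, h2, cjS_bot]
  have hdim2 := VE_ge hZ hs k.comm hne
  have hdeg0 : 0 < (minpoly ℚ M).natDegree := by
    rw [Nat.pos_iff_ne_zero]
    intro h2
    rw [h2, zero_mul] at hdim2
    omega
  have hdimU : finrank ℂ U = finrank ℂ (VE M θ) := by
    rw [← hfr, ← h1]
    exact (finrank_map_of_inj hi).symm
  have hdd : finrank ℂ U ≤ 7 ∨ ¬4 ∣ finrank ℂ U := by
    rw [hdimU]
    rcases hd with hd | hd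
    · left
      by_contra h2
      have h3 : (minpoly ℚ M).natDegree * 7 ≤ (minpoly ℚ M).natDegree * finrank ℂ (VE M θ) :=
        Nat.mul_le_mul_left _ (by omega)
      omega
    · right
      rintro ⟨c, hc⟩
      apply hd
      have h4 : (minpoly ℚ M).natDegree * finrank ℂ (VE M θ) = 2 * G := le_antisymm hdim hdim2
      exact ⟨c, by rw [← h4, hc]; ring⟩
  let b : (Fin G ⊕ Fin G → ℂ) →ₗ[ℂ] (Fin G ⊕ Fin G → ℂ) →ₗ[ℂ] ℂ := (om G).compl₁₂ T T
  have hb : ∀ u v, b u v = om G (T u) (T v) := fun _ _ => rfl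
  refine rk1_sp h hZ hD hU b ?_ ?_ ?_ hdd
  · obtain ⟨w, hw, hw0⟩ := Submodule.exists_mem_ne_zero_of_ne_bot hW.1
    have h5 : cnj w ∈ VE M (σ θ) := by
      have h5 : cjS cc (VE M (σ θ)) = VE M (σ θ) := by
        rw [VE_cj, hreal]
      rw [← h5]
      change (fun i => cc.symm (cnj w i)) ∈ VE M (σ θ)
      have h6 : (fun i => cc.symm (cnj w i)) = w := cnj_cnj w
      rwa [h6]
    have h6 : DZ Z *ᵥ w ∈ VE M (σ θ) := hW.2.1 _ DZ_mem w hw
    rw [← h1] at h5 h6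
    obtain ⟨u, hu, hu'⟩ := h5
    obtain ⟨v, hv, hv'⟩ := h6
    refine ⟨u, hu, v, hv, fun h0 => ?_⟩
    rw [hb, hu', hv'] at h0
    have h5 := hZ.herm_pos hw0
    rw [h0, mul_zero] at h5
    exact lt_irrefl _ h5
  · intro X hX u hu v hv
    rw [hb, hb, hT X hX u hu, hT X hX v hv]
    exact hZ.om_sp hX _ _
  · intro u _ v _
    exact om_anti _ _

end

end Pool.Agent.N183.TS
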