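import Mathlib
import Pool.Agent.N183.TS.Rk
import Pool.Agent.R915.F1

/-!
# Forms killed by the second Lie algebra are killed by the first one
-/

set_option linter.unusedSectionVars false

namespace Pool.Agent.N183.TS

open Matrix Module Pool.Agent.W437.HC Pool.Agent.W437.HD Pool.Agent.W548.Odd Pool.Agent.W522.U
open Pool.Agent.H204R3.SP Pool.Agent.H204R3.GP Pool.Agent.Y90 Pool.Agent.Y224.TS
open Pool.Agent.W437.HP (cK cK_mul cK_one)

noncomputable section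

variable {G : ℕ} {Z : Matrix (Fin G) (Fin G) ℂ}
  {S : Set (Matrix (Fin G ⊕ Fin G) (Fin G ⊕ Fin G) ℂ)}

/-- The forms which are invariant under the elements attached to the automorphisms. -/
def NK (hZ : PM Z) (κ : Type) [Finite κ] :
    Submodule ℂ (MultilinearMap ℂ (fun _ : κ => Fin G ⊕ Fin G → ℂ) ℂ) where
  carrier := {φ | ∀ (σ : ℂ ≃+* ℂ) v, φ (fun k => RZ Z (gs hZ σ) (v k)) = φ v}
  add_mem' := by
    intro φ ψ hφ hψ σ v
    rw [MultilinearMap.add_apply, MultilinearMap.add_apply, hφ, hψ]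
  zero_mem' := fun σ v => rfl
  smul_mem' := by
    intro c φ hφ σ v
    rw [MultilinearMap.smul_apply, MultilinearMap.smul_apply, hφ]

theorem mem_NK {hZ : PM Z} {κ : Type} [Finite κ]
    {φ : MultilinearMap ℂ (fun _ : κ => Fin G ⊕ Fin G → ℂ) ℂ} :
    φ ∈ NK hZ κ ↔ ∀ (σ : ℂ ≃+* ℂ) v, φ (fun k => RZ Z (gs hZ σ) (v k)) = φ v := Iff.rfl

theorem clo_NK (hZ : PM Z) : Clo (NK hZ) := by
  constructor
  · intro κ _ _ φ σ v
    congr 1
    exact Subsingleton.elim _ _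
  · intro κ κ' κ'' _ _ _ e φ φ' ψ hφ hφ' hψ σ v
    rw [hψ, hψ, hφ σ (fun k => v (e (Sum.inl k))), hφ' σ (fun k => v (e (Sum.inr k)))]

/-- The balance of the traces. -/
theorem balT (h : TD Z S) (hZ : PM Z) {s : ℕ} (W : Fin s → Submodule ℂ (Fin G ⊕ Fin G → ℂ))
    (hW : ∀ i, IrS (LZ Z) (W i)) (st : Fin s → Fin s) (hst : ∀ i, st (st i) = i)
    (hDu : ∀ i, Du (RZ Z) 1 (W i) (W (st i))) (a : Fin s → ℤ)
    (ha : ∀ i, a (st i) = -a i)
    (htr : ∀ τ : ℂ ≃+* ℂ, ∑ i, a i * Pool.Agent.Y90.tr Z (cjS τ (W i)) = 0) (τ : ℂ ≃+* ℂ) :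
    ∑ q : (Σ i, Fin (a i).toNat), Pool.Agent.Y90.tr Z (cjS τ (W q.1)) = 0 := by
  have htr := htr τ
  have h1 : ∑ i, a i * Pool.Agent.Y90.tr Z (cjS τ (W i)) =
      ∑ i, ((a i).toNat : ℤ) * Pool.Agent.Y90.tr Z (cjS τ (W i)) -
      ∑ i, ((-a i).toNat : ℤ) * Pool.Agent.Y90.tr Z (cjS τ (W i)) := by
    rw [← Finset.sum_sub_distrib]
    refine Finset.sum_congr rfl fun i _ => ?_
    rw [← sub_mul]
    congr 1
    omega
  have h2 : ∑ i, ((-a i).toNat : ℤ) * Pool.Agent.Y90.tr Z (cjS τ (W i)) =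
      -∑ i, ((a i).toNat : ℤ) * Pool.Agent.Y90.tr Z (cjS τ (W i)) := by
    let stE : Equiv.Perm (Fin s) := ⟨st, st, hst, hst⟩
    rw [← Equiv.sum_comp stE, ← Finset.sum_neg_distrib]
    refine Finset.sum_congr rfl fun i _ => ?_
    change ((-a (st i)).toNat : ℤ) * Pool.Agent.Y90.tr Z (cjS τ (W (st i))) = _
    rw [ha, neg_neg, tr_st hZ (hW i) (hW (st i)) (hDu i) τ]
    ring
  rw [Fintype.sum_sigma]
  have h3 : ∀ i, ∑ _q : Fin (a i).toNat, Pool.Agent.Y90.tr Z (cjS τ (W i)) =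
      ((a i).toNat : ℤ) * Pool.Agent.Y90.tr Z (cjS τ (W i)) := by
    intro i
    rw [Finset.sum_const, Finset.card_univ, Fintype.card_fin, nsmul_eq_mul]
  have h4 : ∑ i, ∑ q : Fin (a i).toNat,
      Pool.Agent.Y90.tr Z (cjS τ (W (⟨i, q⟩ : Σ i, Fin (a i).toNat).1)) =
      ∑ i, ((a i).toNat : ℤ) * Pool.Agent.Y90.tr Z (cjS τ (W i)) :=
    Finset.sum_congr rfl fun i _ => h3 i
  rw [h4]
  rw [htr, h2] at h1
  linarith

/-- Products of determinants with balanced traces. -/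
theorem det_NK (hZ : PM Z) {Q : Type} [Fintype Q] (W : Q → Submodule ℂ (Fin G ⊕ Fin G → ℂ))
    (hW : ∀ q, Stab (LZ Z) (W q))
    (hbal : ∀ τ : ℂ ≃+* ℂ, ∑ q, Pool.Agent.Y90.tr Z (cjS τ (W q)) = 0)
    (ι : Q → Type) [∀ q, Fintype (ι q)] [∀ q, DecidableEq (ι q)]
    (f : ∀ q, Basis (ι q) ℂ (W q)) (p : ∀ q, ι q → (Fin G ⊕ Fin G → ℂ) →ₗ[ℂ] W q)
    (hp : ∀ q y g x, (p q y (RZ Z g x) : Fin G ⊕ Fin G → ℂ) = RZ Z g (p q y x))
    (ψ : MultilinearMap ℂ (fun _ : (Σ q, ι q) => Fin G ⊕ Fin G → ℂ) ℂ)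
    (hψ : ∀ v, ψ v = ∏ q, (f q).det (fun y => p q y (v ⟨q, y⟩))) : ψ ∈ NK hZ (Σ q, ι q) := by
  intro σ v
  have hst : ∀ q, ∀ u ∈ W q, RZ Z (gs hZ σ) u ∈ W q := fun q => rz_stable hZ (hW q) (gs hZ σ)
  rw [hψ, hψ]
  have h1 : ∀ q, (f q).det (fun y => p q y (RZ Z (gs hZ σ) (v ⟨q, y⟩))) =
      (2 : ℂ) ^ Pool.Agent.Y90.tr Z (cjS σ.symm (W q)) * (f q).det (fun y => p q y (v ⟨q, y⟩)) := by
    intro q
    have h2 : (fun y => p q y (RZ Z (gs hZ σ) (v ⟨q, y⟩))) =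
        ((RZ Z (gs hZ σ)).restrict (hst q)) ∘ fun y => p q y (v ⟨q, y⟩) := by
      funext y
      exact Subtype.ext (hp q y _ _)
    rw [h2, Basis.det_comp, det_gs hZ (hW q) σ (hst q)]
  rw [Finset.prod_congr rfl fun q _ => h1 q, Finset.prod_mul_distrib]
  have h2 : ∀ (t : Finset Q),
      ∏ q ∈ t, (2 : ℂ) ^ Pool.Agent.Y90.tr Z (cjS σ.symm (W q)) =
      (2 : ℂ) ^ ∑ q ∈ t, Pool.Agent.Y90.tr Z (cjS σ.symm (W q)) := by
    classical
    intro t
    induction t using Finset.induction_on with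
    | empty => simp
    | insert i t hi ih => rw [Finset.prod_insert hi, Finset.sum_insert hi, ih,
        zpow_add₀ two_ne_zero]
  rw [h2, hbal, zpow_zero, one_mul]

section main

variable (h : TD Z S) (hZ : PM Z) (hs : LTF Z S)
include h hZ hs

/-- Invariant forms. -/
theorem inv_NK {m : ℕ}
    (φ : MultilinearMap ℂ (fun _ : Fin m × Fin 2 => Fin G ⊕ Fin G → ℂ) ℂ)
    (hφ : ∀ (g : Gam (GG (Y224.TS.LT S))) v, φ (fun k => RG (GG (Y224.TS.LT S)) g (v k)) = φ v) :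
    φ ∈ NK hZ (Fin m × Fin 2) := by
  have hSI : ∀ {U}, W522.U.SI (RG (GG (Y224.TS.LT S))) U ↔ IrS (LZ Z) U := fun {U} => h.si hZ
  have hp := gz_proj h.genI h.cr
  obtain ⟨s, W, hW, hWW, hall⟩ := exists_reps hp
  obtain ⟨st, hst, hDu, hDu'⟩ := exists_st (χ := 1) hp (om G) om_nd (h.om' hZ) W hW hWW hall
  refine R915.forms_mem' (χ := 1) (fun Δ hΔ => fi_top Δ hΔ) (om G) om_nd (h.om' hZ) ?_ ?_ ?_ hp
    W hW hWW hall st hst hDu hDu' (NK hZ) (clo_NK hZ) ?_ ?_ φ ?_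
  · intro U hU hn
    exact (locT h hZ hs (hSI.1 hU) hn).1.unip h
  · intro U hU hn
    exact h.line hZ (hSI.1 hU) hn
  · intro U U' hU hU' hn _ ψ hT
    exact h.twist hZ (hSI.1 hU) (locT h hZ hs (hSI.1 hU) hn).2 ψ hT
  · intro b hb σ v
    have h1 := (rz_bil hZ stab_top stab_top b).2 (fun X hX u _ v _ => by
      refine (h.bil b (fun X hX => hZ.om_sp hX)).1 (fun X hX u v => ?_) X hX u v
      exact (gz_bil h.genI stab_top stab_top b).1 (fun g u _ v _ => by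
        rw [hb, MonoidHom.one_apply, one_mul]) X hX u trivial v trivial) (gs hZ σ)
    exact h1 (v 0) trivial (v 1) trivial
  · intro a ha hag ι _ _ f p hp ψ hψ
    have hW' : ∀ i, IrS (LZ Z) (W i) := fun i => hSI.1 (hW i)
    have key : ∀ (U : Submodule ℂ (Fin G ⊕ Fin G → ℂ)) (q : (Fin G ⊕ Fin G → ℂ) →ₗ[ℂ] U),
        (∀ g x, (q (RG (GG (Y224.TS.LT S)) g x) : Fin G ⊕ Fin G → ℂ) =
          RG (GG (Y224.TS.LT S)) g (q x)) →
        ∀ g x, (q (RZ Z g x) : Fin G ⊕ Fin G → ℂ) = RZ Z g (q x) := by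
      intro U q hq g x
      have h1 := (gz_equiv h.genI stab_top (U.subtype.comp q)).1 (fun g u _ => hq g u)
      have h2 := (h.eqv (U.subtype.comp q)).1 fun X hX w => h1 X hX w trivial
      exact (rz_equiv hZ stab_top (U.subtype.comp q)).2 (fun X hX u _ => h2 X hX u) g x trivial
    refine det_NK hZ (fun q : (Σ i, Fin (a i).toNat) => W q.1) (fun q => (hW' q.1).2.1) ?_ ι f p
      (fun q y => key _ _ (hp q y)) ψ hψ
    exact balT h hZ W hW' st hst (fun i => (h.du hZ (hW' i).2.1 (hW' _).2.1).1 (hDu i)) a ha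
      (h.tr_of_det hZ W hW' a hag)
  · refine ⟨⊤, inferInstance, fun g _ v => ?_⟩
    rw [MonoidHom.one_apply, one_pow, one_mul]
    exact hφ g v

/-- Forms killed by the involutions are killed by the Lie algebra of the period matrix. -/
theorem kill_LZ {κ : Type} [Fintype κ] [DecidableEq κ]
    (φ : MultilinearMap ℂ (fun _ : κ => Fin G ⊕ Fin G → ℂ) ℂ)
    (hφ : ∀ D ∈ S, Kills (ph (Fin G ⊕ Fin G) D) φ) :
    ∀ X ∈ LZ Z, Kills (ph (Fin G ⊕ Fin G) X) φ := by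
  classical
  have hinv : ∀ (g : Gam (GG (Y224.TS.LT S))) v,
      φ (fun k => RG (GG (Y224.TS.LT S)) g (v k)) = φ v := by
    intro g v
    refine inv_gam φ (fun D hD _ => ?_) g v
    obtain ⟨X, hX, rfl⟩ := exists_GG hD
    exact kills_LT hφ hX
  have hN : φ ∈ NK hZ κ := by
    rcases Nat.even_or_odd (Fintype.card κ) with he | ho
    · obtain ⟨m, hm⟩ := he
      have e : κ ≃ Fin m × Fin 2 := Fintype.equivOfCardEq (by
        rw [Fintype.card_prod, Fintype.card_fin, Fintype.card_fin, hm]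
        ring)
      have h1 := inv_NK h hZ hs (φ.domDomCongr e) (fun g v => by
        rw [MultilinearMap.domDomCongr_apply, MultilinearMap.domDomCongr_apply]
        exact hinv g _)
      exact (clo_NK hZ).reindex e.symm h1 φ fun v => by
        rw [MultilinearMap.domDomCongr_apply]
        congr 1
        funext k
        simp
    · have h0 : φ = 0 := by
        refine MultilinearMap.ext fun v => ?_
        obtain ⟨D, hDS, -⟩ := h.ex (RingEquiv.refl ℂ)
        have hDD : ph (Fin G ⊕ Fin G) D * ph (Fin G ⊕ Fin G) D = 1 := by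
          rw [← map_mul, h.sq D hDS, map_one]
        have hDm : ph (Fin G ⊕ Fin G) D ∈ GG (Y224.TS.LT S) := mem_GG.2 (LT_gen hDS)
        have h1 := hinv (gt hDD hDm (-1)) v
        have h2 : (fun k => RG (GG (Y224.TS.LT S)) (gt hDD hDm (-1)) (v k)) =
            fun k => (-1 : ℂ) • v k := by
          funext k
          change torE (ph _ D) (-1) (v k) = _
          rw [torE_apply]
          simp only [Units.val_neg, Units.val_one, inv_neg, inv_one]
          module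
        rw [h2, MultilinearMap.map_smul_univ, Finset.prod_const, Finset.card_univ,
          Odd.neg_one_pow ho, neg_one_smul] at h1
        have h3 : φ v = 0 := by linear_combination (-1 / 2 : ℂ) * h1
        rw [h3]
        rfl
      rw [h0]
      exact Submodule.zero_mem _
  have hDS : ∀ σ, act (DS Z σ) (CF φ) = 0 := fun σ =>
    kill_of_inv (DS_sq hZ.det σ) fun v => hN σ v
  have h1 : LZ Z ≤ killL φ := LZ_le hDS (fun A hA C hC => act_bracket hA hC)
  exact fun X hX => kills_of_act (h1 hX)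

end main

end

end Pool.Agent.N183.TS
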