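import Mathlib
import Pool.Agent.R915.Stm

/-!
# A class of simple abelian varieties
-/

namespace Pool.Agent.N183.TS

open Module Pool.Agent.Y90 Pool.Agent.R915

/-- The simple abelian variety `Y` is of Albert type I or II, of relative dimension at most three or
odd. Here `ℚ[a]` is a totally real maximal subfield of the endomorphism algebra (`RealMax`), of
degree `n`, and the relative dimension is `r = (dim Y) / n = (dim_ℚ H_1(Y, ℚ)) / (2 n)`; the
conditions below say that `r` is at most three, and that `r` is odd. -/
def RealOdd (Y : AV) : Prop :=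
  ∃ a, RealMax Y a ∧ (finrank ℚ Y.H ≤ 6 * (minpoly ℚ a).natDegree ∨
    ¬4 * (minpoly ℚ a).natDegree ∣ finrank ℚ Y.H)

end Pool.Agent.N183.TS
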