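import Mathlib
import Pool.Agent.N183.TS.Cls
import Pool.Agent.N183.TS.Stm
import Pool.Agent.R915.H2

/-!
# The Lie algebra of the period matrix, and Hodge classes
-/

set_option linter.unusedSectionVars false

namespace Pool.Agent.N183.TS

open Matrix Module Pool.Agent.W437.HC Pool.Agent.W437.HD Pool.Agent.W548.Odd Pool.Agent.W522.U
open Pool.Agent.H204R3.SP Pool.Agent.H204R3.GP Pool.Agent.Y90 Pool.Agent.Y224.TS
open Pool.Agent.W437.HP (cK cK_mul cK_one)
open Pool.Agent.R915 (QF RF VE mem_VE VE_cj VE_main LC RealMax QuadMult HasCMult IsFactor Sys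
  Unbalanced IsOfType CMFactor)
open Pool.Agent.W547.KB (CMPair CMAV)
open Polynomial

open scoped ComplexOrder

noncomputable section

section self

variable {g : ℕ} {Z : Matrix (Fin g) (Fin g) ℂ} (h : PM Z)

theorem LT_self : Y224.TS.LT (Set.range (DS Z)) = LZ Z := by
  apply le_antisymm
  · refine LT_le ?_ fun A hA C hC => LZ_br hA hC
    rintro _ ⟨σ, rfl⟩
    exact DS_mem σ
  · exact LZ_le (fun σ => LT_gen ⟨σ, rfl⟩) fun A hA C hC => LT_br hA hC

include h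

/-- The conjugates of the complex structure. -/
theorem td_self : TD Z (Set.range (DS Z)) := by
  refine ⟨?_, ?_, ?_, ?_, ?_, ?_⟩
  · rintro _ ⟨σ, rfl⟩
    exact DS_sq h.det σ
  · rintro _ ⟨σ, rfl⟩ u v
    exact h.om_sp (DS_mem σ) u v
  · intro P
    constructor
    · intro h1
      let L : Submodule ℂ (Matrix (Fin g ⊕ Fin g) (Fin g ⊕ Fin g) ℂ) :=
        { carrier := {X | P * X = X * P}
          add_mem' := fun {X Y} hX hY => by
            change P * (X + Y) = (X + Y) * P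
            rw [mul_add, add_mul, show P * X = X * P from hX, show P * Y = Y * P from hY]
          zero_mem' := by
            change P * 0 = 0 * P
            rw [mul_zero, zero_mul]
          smul_mem' := fun c X hX => by
            change P * (c • X) = (c • X) * P
            rw [mul_smul_comm, smul_mul_assoc, show P * X = X * P from hX] }
      have hL : LZ Z ≤ L := by
        refine LZ_le (fun σ => h1 _ ⟨σ, rfl⟩) (fun A hA C hC => ?_)
        have hA' : P * A = A * P := hA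
        have hC' : P * C = C * P := hC
        change P * (A * C - C * A) = (A * C - C * A) * P
        rw [mul_sub, sub_mul, ← mul_assoc, hA', mul_assoc, hC', ← mul_assoc, ← mul_assoc P C A,
          hC', mul_assoc C P A, hA', ← mul_assoc]
      exact fun X hX => hL hX
    · rintro h1 _ ⟨σ, rfl⟩
      exact h1 _ (DS_mem σ)
  · rintro _ ⟨σ, rfl⟩
    exact ⟨σ, fun _ _ => rfl⟩
  · intro σ
    exact ⟨_, ⟨σ, rfl⟩, fun _ _ => rfl⟩
  · rw [LT_self]
    exact h.cred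

omit h in
theorem DS_refl : DS Z (RingEquiv.refl ℂ) = DZ Z := by
  ext i j
  rfl

omit h in
theorem rk1_of_D {U : Submodule ℂ (Fin g ⊕ Fin g → ℂ)}
    (hr : Rk1D (Set.range (DS Z)) (DZ Z) U) : Rk1 Z U := by
  obtain ⟨ε, hε, N, hN, h1, h2, h3⟩ := hr
  rw [LT_self] at hN
  refine ⟨ε • DZ Z, ?_, N, hN, h1, h2, h3⟩
  rcases hε with rfl | rfl
  · exact Or.inl (one_smul _ _)
  · exact Or.inr (neg_one_smul _ _)

/-- The local conditions for the types I and II of odd relative dimension or of relative dimension at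
most three. -/
theorem RealOdd.lc (hs : R915.IsSimple (AVZ h)) (hg : 0 < g) (k : RealOdd (AVZ h))
    {U : Submodule ℂ (Fin g ⊕ Fin g → ℂ)} (hU : IrS (LZ Z) U) : LC h U := by
  obtain ⟨a, ha, hd⟩ := k
  have k := ha.rf h
  let e : Matrix (Fin g ⊕ Fin g) (Fin g ⊕ Fin g) ℚ ≃ₐ[ℚ] Module.End ℚ (Fin g ⊕ Fin g → ℚ) :=
    Matrix.toLinAlgEquiv'
  have hea : e (LinearMap.toMatrix' a) = a := Matrix.toLin'_toMatrix' a
  have hmp : minpoly ℚ (LinearMap.toMatrix' a) = minpoly ℚ a := by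
    have h4 := minpoly.algEquiv_eq e (LinearMap.toMatrix' a)
    rw [hea] at h4
    exact h4.symm
  rw [R915.finrank_AVZ] at hd
  refine k.lc h (R915.simple_AVZ h hs) hg hU (rk1_of_D ?_)
  refine cls_real (td_self h) h ⟨RingEquiv.refl ℂ, DS_refl⟩ hU (R915.simple_AVZ h hs) hg k ?_
  rw [hmp]
  exact hd

end self

/-- Hodge classes. -/
theorem hodge_all (𝒜 : Sys) (X : AV)
    (hX : ∀ Y, IsFactor Y X → finrank ℚ Y.H ≤ 6 ∨ HasCMult Y ∨ QuadMult Y ∨ RealOdd Y)
    (C : CMAV) {J : Type} (b : C.I → J) (hC : Pool.Agent.W547.UB.IndependentBlocks C b)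
    (h1 : ∀ Y, IsFactor Y X → HasCMult Y → ∃ i, IsOfType Y (C.factor i))
    (h2 : ∀ (Y E : AV) (d : ℚ), IsFactor Y X → ¬ HasCMult Y → Unbalanced Y d →
      finrank ℚ E.H = 2 → Unbalanced E d → ∃ i, IsOfType E (C.factor i)) :
    𝒜.AllHodge X := by
  refine R915.main_cm 𝒜 X (fun a Z' h' i hi hinj hsim ha => ?_) fun Q _ _ a Z' h' hc =>
    R915.prod_blocks 𝒜 hC h' fun q => ?_
  · by_cases hcm : HasCMult (AVZ h')
    · exact Or.inr hcm
    refine Or.inl ⟨hcm, fun U hU => ?_⟩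
    rcases hX (AVZ h') ⟨hsim, i, hi, hinj⟩ with k | k | k | k
    · exact R915.SmallDim.lc h' hsim ha ⟨k, fun h1 => absurd h1 hcm⟩ hU
    · exact absurd k hcm
    · exact k.lc h' hU
    · exact k.lc h' hsim ha hU
  · obtain ⟨h3, h4, h5 | ⟨h5, d, h6, Y', hY', hn, h7⟩⟩ := hc q
    · exact h1 _ h5 h4
    · exact h2 Y' _ d hY' hn h7 h5 h6

/-- The local conditions for the second Lie algebra of a simple factor. -/
theorem cls_all {g : ℕ} {Z : Matrix (Fin g) (Fin g) ℂ} (h : PM Z)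
    {S : Set (Matrix (Fin g ⊕ Fin g) (Fin g ⊕ Fin g) ℂ)} (hT : TD Z S)
    (hs : R915.IsSimple (AVZ h)) (hg : 0 < g)
    (hX : finrank ℚ (AVZ h).H ≤ 6 ∨ HasCMult (AVZ h) ∨ QuadMult (AVZ h) ∨ RealOdd (AVZ h))
    {U : Submodule ℂ (Fin g ⊕ Fin g → ℂ)} (hU : IrS (LZ Z) U) (hn : 2 ≤ finrank ℂ U) :
    Rk1T S U ∧ ∀ (σ : ℂ ≃+* ℂ) (c : ℂ), ∃ u ∈ U, DS Z σ *ᵥ u ≠ c • u := by
  obtain ⟨D, hD, -⟩ := hT.ex (RingEquiv.refl ℂ)
  rcases hX with k | k | k | ⟨a, ha, hd⟩
  · rw [R915.finrank_AVZ] at k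
    obtain ⟨e1, e2⟩ := cls_small hT h hD hU (R915.simple_AVZ h hs) (by omega) hn
    exact ⟨e1.rk1T hD, e2⟩
  · have h1 := R915.line_of_comm (R915.comm_of_cm h (R915.simple_AVZ h hs) hg k) hU
    omega
  · obtain ⟨d, f, k, ⟨Ψ, hΨ, hsig⟩, h6⟩ := k
    have q := k.qf h
    have hΨ' : ∀ v, Ψ (perOne Z v) = perOne Z (LinearMap.toMatrix' f *ᵥ v) := by
      intro v
      have h2 := hΨ v
      have h3 : LinearMap.toMatrix' f *ᵥ v = f v := by
        rw [← Matrix.toLin'_apply, Matrix.toLin'_toMatrix']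
      rw [h3]
      exact h2
    have key : ∀ (s : ℂ), s * s = -(d : ℂ) → ∀ U1 : Submodule ℂ (Fin g ⊕ Fin g → ℂ),
        (∀ v, v ∈ U1 ↔ qm (LinearMap.toMatrix' f) *ᵥ v = s • v) → pd Z U1 ≤ 3 := by
      intro s hs U1 hU1
      rw [R915.pd_sig h q.comm hΨ' s hU1]
      exact hsig s hs
    have h3 : ∀ U : Submodule ℂ (Fin g ⊕ Fin g → ℂ), IrS (LZ Z) U →
        (pd Z U ≤ 3 ∧ qd Z U ≤ 3) ∨ Nat.Coprime (pd Z U) (qd Z U) := by
      intro U hU
      left
      obtain ⟨α, hα, hm⟩ := q.exists_root h hU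
      refine ⟨key α hα U hm, ?_⟩
      have h1 := key (-α) (by rw [neg_mul_neg]; exact hα) (cjS cc U) (fun v => by
        rw [q.cj_mem hα hm, q.cc_root hα])
      rwa [pd_cc] at h1
    obtain ⟨e1, e2⟩ := cls_quad hT h hD hU q h3 hn
    exact ⟨e1.rk1T hD, e2⟩
  · have k := ha.rf h
    let e : Matrix (Fin g ⊕ Fin g) (Fin g ⊕ Fin g) ℚ ≃ₐ[ℚ] Module.End ℚ (Fin g ⊕ Fin g → ℚ) :=
      Matrix.toLinAlgEquiv'
    have hea : e (LinearMap.toMatrix' a) = a := Matrix.toLin'_toMatrix' a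
    have hmp : minpoly ℚ (LinearMap.toMatrix' a) = minpoly ℚ a := by
      have h4 := minpoly.algEquiv_eq e (LinearMap.toMatrix' a)
      rw [hea] at h4
      exact h4.symm
    rw [R915.finrank_AVZ] at hd
    exact ⟨(cls_real hT h hD hU (R915.simple_AVZ h hs) hg k (by rw [hmp]; exact hd)).rk1T hD,
      R915.ns_of_sdu h (k.sdu h (R915.simple_AVZ h hs) hg hU)⟩

end

end Pool.Agent.N183.TS
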