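import Mathlib
import Pool.Agent.N183.TS.Self
import Pool.Agent.N183.TS.Glob
import Pool.Agent.Y224.TS.D8

/-!
# Tate classes
-/

set_option linter.unusedSectionVars false

namespace Pool.Agent.N183.TS

open Matrix Module Pool.Agent.W437.HC Pool.Agent.W437.HD Pool.Agent.W548.Odd
open Pool.Agent.H204R3.SP Pool.Agent.H204R3.GP Pool.Agent.Y90 Pool.Agent.Y224.TS TensorProduct
open Pool.Agent.Y224.TS.St (IsHodgeTate IsTateModule)
open Pool.Agent.W437.HP (cK cK_mul cK_one)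
open Pool.Agent.H204R3.CM (IsHodge)
open Pool.Agent.TH504.CB (isHodge_comp)
open Pool.Agent.R915 (RealMax QuadMult HasCMult IsFactor Sys Unbalanced IsOfType)
open Pool.Agent.W547.KB (CMPair CMAV)

noncomputable section

variable {K : Type} [Field K] [CharZero K] [Algebra K ℂ] {Γ : Type} [Group Γ]

/-- **Tate classes are combinations of Hodge classes.** -/
theorem tate_hodge [Algebra.IsAlgebraic K ℂ] (X : AV)
    (hX : ∀ Y, IsFactor Y X → finrank ℚ Y.H ≤ 6 ∨ HasCMult Y ∨ QuadMult Y ∨ RealOdd Y)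
    {E : X.H → X.H → ℚ} (hE : Pool.Agent.Y90.St.IsPolarization X.per E)
    {ρ : Representation K Γ (K ⊗[ℚ] X.H)} {χ : Γ →* K}
    (hρ : IsTateModule X.per E ρ χ) {κ : Type} [Finite κ] {m : ℕ} (hκ : Nat.card κ = 2 * m)
    (φ : (K ⊗[ℚ] X.H) [⋀^κ]→ₗ[K] K)
    (hφ : ∃ Δ : Subgroup Γ, Δ.FiniteIndex ∧ ∀ g ∈ Δ, ∀ v : κ → K ⊗[ℚ] X.H,
      φ (fun k => ρ g (v k)) = χ g ^ m * φ v) :
    ∃ (n : ℕ) (c : Fin n → K) (f : Fin n → (X.H [⋀^κ]→ₗ[ℚ] ℚ)),
      (∀ j, IsHodge X.per (f j)) ∧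
        ∀ v : κ → X.H, φ (fun k => (1 : K) ⊗ₜ[ℚ] v k) = ∑ j, c j * ((f j v : ℚ) : K) := by
  classical
  obtain ⟨a, Z, hZ, b, hC, hb⟩ := exists_ppav' (AV.isAV X) hE
  have hTD : TD Z (SH X.per ρ χ b) := td_of b hb hC hρ
  have hLTF : LTF Z (SH X.per ρ χ b) := by
    intro a' Z' E' F' hfac h' hsim ha U hU hn
    have hs := R915.simple_of a' h' hsim ha
    obtain ⟨Ψ₁, h₁⟩ := h'.cht.hom hC (R := E') (by
      rw [DJ_JR, DJ_JR]
      exact hfac.de.symm)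
    refine cls_all h' (tdF hfac hTD hZ h') hs ha (hX (AVZ h')
      ⟨hs, b.equivFun.symm.toLinearMap.comp (Matrix.mulVecLin E'), ⟨Ψ₁, fun v => h₁ v⟩, ?_⟩) hU hn
    intro x y hxy
    have h2 : E' *ᵥ x = E' *ᵥ y := b.equivFun.symm.injective hxy
    have h3 := congrArg (fun v => F' *ᵥ v) h2
    beta_reduce at h3
    rw [mulVec_mulVec, mulVec_mulVec, hfac.fe, one_mulVec, one_mulVec] at h3
    exact h3
  obtain ⟨Ψ₂, h₂⟩ := hC.hom hZ.cht (R := 1) (by rw [cK_one, Matrix.one_mul, Matrix.mul_one])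
  have e₂ : ∀ v, Ψ₂ (X.per v) = perOne Z (b.equivFun v) := fun v => by
    have h3 := h₂ (b.equivFun v)
    have h4 : (X.per.comp b.equivFun.symm.toLinearMap.toAddMonoidHom) (b.equivFun v) = X.per v := by
      change X.per (b.equivFun.symm (b.equivFun v)) = X.per v
      rw [LinearEquiv.symm_apply_apply]
    rwa [h4, one_mulVec] at h3
  -- the form in the standard variables
  let _ : Fintype κ := Fintype.ofFinite κ
  have e : κ ≃ Fin m × Fin 2 := Fintype.equivOfCardEq (by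
    rw [← Nat.card_eq_fintype_card, hκ, Fintype.card_prod, Fintype.card_fin, Fintype.card_fin,
      mul_comm])
  let φ' : MultilinearMap K (fun _ : Fin m × Fin 2 => K ⊗[ℚ] X.H) K :=
    φ.toMultilinearMap.domDomCongr e
  have hφ' : ∀ v, φ' v = φ (fun k => v (e k)) := fun v => rfl
  have hT : IsTate ρ χ m φ' := by
    obtain ⟨Δ, hΔ, h⟩ := hφ
    refine ⟨Δ, hΔ, fun s hs v => ?_⟩
    rw [hφ', hφ']
    exact h s hs (fun k => v (e k))
  have halt : ∀ (σ : Equiv.Perm (Fin m × Fin 2)) v,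
      φ' (fun k => v (σ k)) = ((Equiv.Perm.sign σ : ℤ) : K) * φ' v := by
    intro σ v
    have h1 : φ' (fun k => v (σ k)) = (φ.domDomCongr e) (v ∘ σ) := rfl
    have h2 : φ' v = (φ.domDomCongr e) v := rfl
    rw [h1, h2, AlternatingMap.map_perm, Units.smul_def, zsmul_eq_mul]
  have h0 := kill_LZ hTD hZ hLTF (FC b φ') (FC_kills b φ' hT)
  have h1 : altQ (FC b φ') ∈ Submodule.span ℂ {g : (Fin m × Fin 2 → Fin a ⊕ Fin a → ℚ) → ℂ |
      ∃ r, IsHodge (perOne Z) r ∧ g = fun v => ((r v : ℚ) : ℂ)} := by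
    obtain ⟨n, c, l, hl⟩ := altQ_expand (FC b φ')
    have h2 : altQ (FC b φ') = ∑ j, c j • fun v => ((ratA (FC b φ') (l j) v : ℚ) : ℂ) := by
      funext v
      rw [hl, Finset.sum_apply]
      rfl
    rw [h2]
    refine Submodule.sum_mem _ fun j _ => Submodule.smul_mem _ _ (Submodule.subset_span
      ⟨_, ?_, rfl⟩)
    exact hZ.cht.hodge_rat gal_LZ (DJ_JR ▸ DZ_mem) (fun X hX => act_of_kills (h0 X hX)) (l j)
  have h2 : (fun v : Fin m × Fin 2 → Fin a ⊕ Fin a → ℚ =>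
      algebraMap K ℂ (φ' (fun k => (1 : K) ⊗ₜ[ℚ] b.equivFun.symm (v k)))) ∈
        Submodule.span ℂ {g : (Fin m × Fin 2 → Fin a ⊕ Fin a → ℚ) → ℂ |
      ∃ r, IsHodge (perOne Z) r ∧ g = fun v => ((r v : ℚ) : ℂ)} := by
    have h3 : (fun v : Fin m × Fin 2 → Fin a ⊕ Fin a → ℚ =>
        algebraMap K ℂ (φ' (fun k => (1 : K) ⊗ₜ[ℚ] b.equivFun.symm (v k)))) =
        (Fintype.card (Equiv.Perm (Fin m × Fin 2)) : ℂ)⁻¹ • altQ (FC b φ') := by
      funext v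
      rw [Pi.smul_apply, smul_eq_mul]
      have h4 := FC_alt b φ' halt v
      rw [h4, ← mul_assoc, inv_mul_cancel₀, one_mul]
      exact_mod_cast Fintype.card_ne_zero
    rw [h3]
    exact Submodule.smul_mem _ _ h1
  -- descent
  let S : Set ((Fin m × Fin 2 → Fin a ⊕ Fin a → ℚ) → K) :=
    {s | ∃ r, IsHodge (perOne Z) r ∧ s = fun v => ((r v : ℚ) : K)}
  have h3 : (fun v : Fin m × Fin 2 → Fin a ⊕ Fin a → ℚ =>
      φ' (fun k => (1 : K) ⊗ₜ[ℚ] b.equivFun.symm (v k))) ∈ Submodule.span K S := by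
    refine span_descent_k (Ω := ℂ) S _ ?_
    refine Submodule.span_mono ?_ h2
    rintro g ⟨r, hr, rfl⟩
    refine ⟨_, ⟨r, hr, rfl⟩, ?_⟩
    funext v
    rw [map_ratCast]
  obtain ⟨n, c, s, hs'⟩ := Submodule.mem_span_set'.1 h3
  choose r hr hr' using fun j => (s j).2
  refine ⟨n, c, fun j => (((r j).compLinearMap b.equivFun.toLinearMap)).domDomCongr e.symm,
    fun j => ?_, fun v => ?_⟩
  · have h4 : IsHodge X.per ((r j).compLinearMap b.equivFun.toLinearMap) :=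
      isHodge_comp b.equivFun.toLinearMap Ψ₂ e₂ (hr j)
    obtain ⟨ψ, h5, h6⟩ := h4
    refine ⟨ψ.domDomCongr e.symm, fun v => ?_, fun z hz u => ?_⟩
    · rw [MultilinearMap.domDomCongr_apply, AlternatingMap.domDomCongr_apply]
      exact h5 _
    · rw [MultilinearMap.domDomCongr_apply, MultilinearMap.domDomCongr_apply]
      exact h6 z hz _
  · have h4 := congrFun hs' (fun k => b.equivFun (v (e.symm k)))
    beta_reduce at h4
    rw [hφ'] at h4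
    have h5 : (fun k => (1 : K) ⊗ₜ[ℚ] b.equivFun.symm (b.equivFun (v (e.symm (e k))))) =
        fun k => (1 : K) ⊗ₜ[ℚ] v k := by
      funext k
      rw [LinearEquiv.symm_apply_apply, Equiv.symm_apply_apply]
    rw [h5] at h4
    rw [← h4, Finset.sum_apply]
    refine Finset.sum_congr rfl fun j _ => ?_
    rw [Pi.smul_apply, smul_eq_mul, hr' j]
    rfl

/-- **Tate classes** on products. -/
theorem tate_all [Algebra.IsAlgebraic K ℂ] (𝒜 : Sys) (X : AV)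
    (hX : ∀ Y, IsFactor Y X → finrank ℚ Y.H ≤ 6 ∨ HasCMult Y ∨ QuadMult Y ∨ RealOdd Y)
    (C : CMAV) {J : Type} (b : C.I → J) (hC : Pool.Agent.W547.UB.IndependentBlocks C b)
    (h1 : ∀ Y, IsFactor Y X → HasCMult Y → ∃ i, IsOfType Y (C.factor i))
    (h2 : ∀ (Y E : AV) (d : ℚ), IsFactor Y X → ¬ HasCMult Y → Unbalanced Y d →
      finrank ℚ E.H = 2 → Unbalanced E d → ∃ i, IsOfType E (C.factor i))
    {E : X.H → X.H → ℚ} (hE : Pool.Agent.Y90.St.IsPolarization X.per E)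
    {ρ : Representation K Γ (K ⊗[ℚ] X.H)} {χ : Γ →* K}
    (hρ : IsTateModule X.per E ρ χ) {κ : Type} [Finite κ] {m : ℕ} (hκ : Nat.card κ = 2 * m)
    (φ : (K ⊗[ℚ] X.H) [⋀^κ]→ₗ[K] K)
    (hφ : ∃ Δ : Subgroup Γ, Δ.FiniteIndex ∧ ∀ g ∈ Δ, ∀ v : κ → K ⊗[ℚ] X.H,
      φ (fun k => ρ g (v k)) = χ g ^ m * φ v) :
    ∃ (n : ℕ) (c : Fin n → K) (f : Fin n → (X.H [⋀^κ]→ₗ[ℚ] ℚ)),
      (∀ j, 𝒜.A X κ (f j)) ∧
        ∀ v : κ → X.H, φ (fun k => (1 : K) ⊗ₜ[ℚ] v k) = ∑ j, c j * ((f j v : ℚ) : K) := by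
  obtain ⟨n, c, f, hf, h3⟩ := tate_hodge X hX hE hρ hκ φ hφ
  exact ⟨n, c, f, fun j => hodge_all 𝒜 X hX C b hC h1 h2 κ (f j) (hf j), h3⟩

end

end Pool.Agent.N183.TS
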